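import Mathlib
import Pool.Agent.H432.AC.Stm
import Pool.Agent.H432.TC.LineE

/-!
# Project AU (helper432): algebraic points on all curves of bounded degree, with discriminants

The arithmetic part of project AC, uniformly in all extensions `K` of the field `E` over which the
certificate is defined: all constants are `[K : ℚ]` times a constant of `E`.
-/

set_option autoImplicit false
set_option linter.unusedVariables false

namespace Pool.Agent.H432.AU

open MvPolynomial NumberField IsDedekindDomain Module Height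
open Pool.Agent.W180.OP (Pl av nrm)
open Pool.Agent.H432.TC (Bd bdc)
open Pool.Agent.H432.AC (Rel)

/-- `w` lies over a prime of `S` -/
def Ov {E K : Type} [Field E] [NumberField E] [Field K] [NumberField K] [Algebra E K]
    (S : Set (HeightOneSpectrum (𝓞 E))) (w : HeightOneSpectrum (𝓞 K)) : Prop :=
  ∃ v ∈ S, w.asIdeal.LiesOver v.asIdeal

/-- A bound on the places of `K` whose constant is at most `[K : ℚ] C` and which is trivial outside of
the infinite places and the primes over `S`. -/
def UB {E K : Type} [Field E] [NumberField E] [Field K] [NumberField K] [Algebra E K]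
    (S : Set (HeightOneSpectrum (𝓞 E))) (C : ℝ) (g : Pl K → ℝ) : Prop :=
  Bd g ∧ bdc g ≤ finrank ℚ K * C ∧ ∀ w : HeightOneSpectrum (𝓞 K), g (Sum.inr w) ≠ 1 → Ov S w

/-- **NRM** (file Bd.lean, helper432). -/
def S_NRM : Prop := ∀ (E : Type) [Field E] [NumberField E] (n : ℕ) (x : Fin n → E) (i0 : Fin n),
  x i0 = 1 → ∃ (S : Set (HeightOneSpectrum (𝓞 E))) (C : ℝ), S.Finite ∧ 0 ≤ C ∧
    ∀ (K : Type) [Field K] [NumberField K] [Algebra E K],
      UB S C (fun p : Pl K => nrm (av p) fun i => algebraMap E K (x i))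

/-- **LOCBU**: `Pool.Agent.H432.AC.locb` (file AC/P_LOCB.lean) uniformly in `K`. The same proof; the
coefficients of the `a i` are in `E`, their absolute values at the places of `K` are bounded by
`S_NRM` (use `(nrm : S_NRM)` as a hypothesis). -/
def S_LOCBU : Prop := ∀ (E ι : Type) [Field E] [NumberField E] [Fintype ι] [Nonempty ι] (m : ℕ)
  (a : Fin m → MvPolynomial ι E), (∀ i, (a i).IsHomogeneous (m - i)) →
  ∃ (S : Set (HeightOneSpectrum (𝓞 E))) (C : ℝ), S.Finite ∧ 0 ≤ C ∧
    ∀ (K : Type) [Field K] [NumberField K] [Algebra E K], ∃ Cb : Pl K → ℝ, UB S C Cb ∧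
      ∀ (g : ι → K) (f : K), f ^ m + ∑ i : Fin m, aeval g (a i) * f ^ (i : ℕ) = 0 →
        ∀ p : Pl K, ∃ j, av p f ≤ Cb p * av p (g j)

/-- **FINU**: the heights of the images of the common zeros of `P` and `Q` in all extensions are
bounded. Proof: by elimination (`PFINZ.elim_eval` or similar in AC/P_FINZ.lean) there are nonzero
polynomials `r 0`, `r 1` in one variable over `E` with `r i (z i) = 0` for all common zeros `z` in all
extensions; apply `S_LOCBU` (with `ι = Unit`, `g = 1`: a monic relation for `z i`, the coefficients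
times powers of the variable) to bound `|z i|_p`, and then the values of the polynomials `φ l`
(coefficients by `S_NRM`). -/
def S_FINU : Prop := ∀ (E : Type) [Field E] [NumberField E] (M : ℕ) (P Q : MvPolynomial (Fin 2) E)
  (φ : Fin M → MvPolynomial (Fin 2) E), Irreducible P → ¬ P ∣ Q →
  ∃ C : ℝ, 0 ≤ C ∧ ∀ (K : Type) [Field K] [NumberField K] [Algebra E K] (z : Fin 2 → K),
    aeval z P = 0 → aeval z Q = 0 → (fun l => aeval z (φ l)) ≠ 0 →
    logHeight (fun l => aeval z (φ l)) ≤ finrank ℚ K * C

/-- **HTU**: `Pool.Agent.H432.AC.ht` (file AC/P_HT.lean) uniformly in `K`. The same proof (with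
`PHT.rel`, the polynomials `a i` are over `E`); the points with `ã_r(φ_l(z), φ_l'(z)) = 0` are covered
by `S_FINU` (applied to the two polynomials `1`, `X c`). -/
def S_HTU : Prop := ∀ (E Ω : Type) [Field E] [NumberField E] [Field Ω] [Algebra E Ω] [IsAlgClosed Ω]
  (M : ℕ) (P : MvPolynomial (Fin 2) E) (φ : Fin M → MvPolynomial (Fin 2) E) (c : Fin 2)
  (l l' : Fin M), Irreducible (MvPolynomial.map (algebraMap E Ω) P) → ¬ P ∣ φ l' →
  (∀ c0 : Ω, ¬ MvPolynomial.map (algebraMap E Ω) P ∣
    MvPolynomial.map (algebraMap E Ω) (φ l) - C c0 * MvPolynomial.map (algebraMap E Ω) (φ l')) →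
  ∃ C1 : ℝ, 0 ≤ C1 ∧ ∀ (K : Type) [Field K] [NumberField K] [Algebra E K] (z : Fin 2 → K),
    aeval z P = 0 → (fun i => aeval z (φ i)) ≠ 0 →
    logHeight ![1, z c] ≤ C1 * (logHeight (fun i => aeval z (φ i)) + finrank ℚ K)

/-- **LINEU**: `Pool.Agent.H432.TC.line_e` (file TC/LineE.lean) uniformly in all extensions `K` of `E`
whose degree satisfies `R`, with the discriminant. The same proof: the polynomials `f`, `R`, `G`, `Q`
of `belyi_field E A` have coefficients in `ℚ` and `E`; the bad primes of `K` lie over finitely many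
primes of `E` and over `S` (their weight is at most `[K : E]` times the weight over `E`, `cnt_ext` in
TC/Cnt.lean); heights of the values of polynomials over `E` at `x ∈ K`:
`logHeight₁ (aeval x G) ≤ deg G * logHeight₁ x + [K : ℚ] C` and
`deg P * logHeight₁ x ≤ logHeight₁ (aeval x P) + [K : ℚ] C` (with `S_NRM` / `S_LOCBU`; compare `ev_up`,
`ev_low` in TC/Bd.lean); the roots of `Z` in `K` have height at most `[K : ℚ] C` by the second of these
inequalities. The union over `∞` and the `α ∈ A` of the primes near them is not split into a sum. -/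
def S_LINEU : Prop := ∀ (E : Type) [Field E] [NumberField E] (R : ℕ → Prop)
  (_ : ∀ ε : ℝ, 0 < ε → ∃ C : ℝ, ∀ (K : Type) [Field K] [NumberField K] [Algebra E K],
    R (finrank ℚ K) → ∀ u : K, Pool.Agent.Q290.NF.Gen u⁻¹ →
      (1 - ε) * logHeight₁ u⁻¹ ≤ Pool.Agent.Q290.NF.wt (fun v => Pool.Agent.Q290.NF.Near u⁻¹ v) +
        Real.log |(discr K : ℝ)| + finrank ℚ K * C)
  (A : Finset E) (S : Set (HeightOneSpectrum (𝓞 E))) (_ : S.Finite) (ε : ℝ) (_ : 0 < ε),
  ∃ C : ℝ, ∀ (K : Type) [Field K] [NumberField K] [Algebra E K], R (finrank ℚ K) → ∀ x : K,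
    (∀ α ∈ A, x ≠ algebraMap E K α) →
      ((A.card : ℝ) - 1 - ε) * logHeight₁ x ≤
        Pool.Agent.Q290.NF.wt (fun v : HeightOneSpectrum (𝓞 K) => ¬ Ov S v ∧
          (1 < v.valuation K x ∨ ∃ α ∈ A, v.valuation K (x - algebraMap E K α) < 1)) +
        Real.log |(discr K : ℝ)| + finrank ℚ K * C

/-- **DISCU**: composites and discriminants. Proof: let `Ω` be an algebraic closure of `K₀`, embed `E`
into `Ω` over `L` and let `K` be the composite of `K₀` and `E` in `Ω`. Let `E = L(α)` with `α` integral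
over `𝓞 L` (over `ℤ`), `f` the minimal polynomial of `α` over `L`. Then `K = K₀(α)`, the minimal
polynomial `g` of `α` over `K₀` divides `f` (over `𝓞 K₀`), so `g'(α)` divides `f'(α)`, and the
different of `K / K₀` divides `g'(α)` (Mathlib: `aeval_derivative_mem_differentIdeal`); then
`|disc K| = |disc K₀| ^ [K : K₀] N(different)`
(Mathlib: `NumberField.natAbs_discr_eq_absNorm_differentIdeal`,
`natAbs_discr_eq_natAbs_discr_pow_mul...` or the tower formula for the different) and
`|N_{K/ℚ}(f'(α))| = |N_{E/ℚ}(f'(α))| ^ [K : E]`. -/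
def S_DISCU : Prop := ∀ (L E : Type) [Field L] [NumberField L] [Field E] [NumberField E]
  [Algebra L E], ∃ C : ℝ, 0 ≤ C ∧ ∀ (K₀ : Type) [Field K₀] [NumberField K₀] [Algebra L K₀],
  ∃ (K : Type) (_ : Field K) (_ : NumberField K) (_ : Algebra K₀ K) (_ : Algebra E K)
    (_ : Algebra L K) (_ : IsScalarTower L K₀ K) (_ : IsScalarTower L E K),
    finrank K₀ K ≤ finrank L E ∧
    Real.log |(discr K : ℝ)| / finrank ℚ K ≤ Real.log |(discr K₀ : ℝ)| / finrank ℚ K₀ + C

end Pool.Agent.H432.AU
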