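import Mathlib
import Pool.Agent.H432.AU.Stm
import Pool.Agent.H432.AC.Ht

/-!
Bounds on the places of all extensions.
-/

set_option autoImplicit false
set_option linter.unusedVariables false
set_option linter.unusedSectionVars false

namespace Pool.Agent.H432.AU

open MvPolynomial NumberField IsDedekindDomain Module Height Pool.Agent.N750
open Pool.Agent.W180.OP (Pl av nrm le_nrm nrm_pos exists_nrm nrm_nonneg)
open Pool.Agent.H432.TC (Bd Bd_cst Bd_one Bd_nrm bdc le_prod_bd exists_under)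
open Pool.Agent.H432.AC (Rel HF HF_bd HF_nrm)

variable {E K : Type} [Field E] [NumberField E] [Field K] [NumberField K] [Algebra E K]

theorem bdc_mul {g h : Pl K → ℝ} (hg : Bd g) (hh : Bd h) :
    bdc (fun p => g p * h p) = bdc g + bdc h := by
  have h1 := HF_bd (hg.mul hh)
  have h2 := (HF_bd hg).add (HF_bd hh)
  have e : ∀ p, Real.log (g p * h p) = Real.log (g p) + Real.log (h p) := fun p =>
    Real.log_mul (by have := hg.1 p; positivity) (by have := hh.1 p; positivity)
  refine le_antisymm (h1.mono h2 fun p => (e p).le) (h2.mono h1 fun p => (e p).ge)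

theorem bdc_one : bdc (fun _ : Pl K => (1 : ℝ)) = 0 := by
  unfold bdc
  simp

theorem UB.mul {S S' : Set (HeightOneSpectrum (𝓞 E))} {C C' : ℝ} {g h : Pl K → ℝ}
    (hg : UB S C g) (hh : UB S' C' h) : UB (S ∪ S') (C + C') (fun p => g p * h p) := by
  refine ⟨hg.1.mul hh.1, ?_, ?_⟩
  · rw [bdc_mul hg.1 hh.1, mul_add]
    exact add_le_add hg.2.1 hh.2.1
  · intro w hw
    by_cases h1 : g (Sum.inr w) = 1
    · have h2 : h (Sum.inr w) ≠ 1 := by
        intro h2
        apply hw
        show g (Sum.inr w) * h (Sum.inr w) = 1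
        rw [h1, h2, mul_one]
      obtain ⟨v, hv, hvw⟩ := hh.2.2 w h2
      exact ⟨v, Or.inr hv, hvw⟩
    · obtain ⟨v, hv, hvw⟩ := hg.2.2 w h1
      exact ⟨v, Or.inl hv, hvw⟩

theorem UB.mono {S S' : Set (HeightOneSpectrum (𝓞 E))} {C C' : ℝ} {g : Pl K → ℝ}
    (hg : UB S C g) (hS : S ⊆ S') (hC : C ≤ C') : UB S' C' g := by
  refine ⟨hg.1, hg.2.1.trans (mul_le_mul_of_nonneg_left hC (Nat.cast_nonneg _)), fun w hw => ?_⟩
  obtain ⟨v, hv, hvw⟩ := hg.2.2 w hw
  exact ⟨v, hS hv, hvw⟩

theorem UB_one : UB (∅ : Set (HeightOneSpectrum (𝓞 E))) 0 (fun _ : Pl K => (1 : ℝ)) := by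
  refine ⟨Bd_one, ?_, fun w hw => absurd rfl hw⟩
  rw [bdc_one, mul_zero]

theorem UB_cst {B : ℝ} (hB : 1 ≤ B) :
    UB (∅ : Set (HeightOneSpectrum (𝓞 E))) (Real.log B) (cst B : Pl K → ℝ) := by
  refine ⟨Bd_cst hB, ?_, fun w hw => absurd rfl hw⟩
  unfold bdc
  have h1 : ∀ v : HeightOneSpectrum (𝓞 K), Real.log (cst B (Sum.inr v : Pl K)) = 0 := by
    intro v
    show Real.log 1 = 0
    exact Real.log_one
  have h2 : ∀ w : InfinitePlace K, (cst B (Sum.inl w : Pl K)) = B := fun w => rfl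
  simp only [h1, h2, finsum_zero, add_zero]
  rw [← Finset.sum_mul]
  have h3 : ∑ w : InfinitePlace K, (w.mult : ℝ) = finrank ℚ K := by
    have := InfinitePlace.sum_mult_eq (K := K)
    exact_mod_cast this
  rw [h3]

theorem UB.prod {ι : Type} (s : Finset ι) (S : ι → Set (HeightOneSpectrum (𝓞 E))) (C : ι → ℝ)
    (g : ι → Pl K → ℝ) (h : ∀ i ∈ s, UB (S i) (C i) (g i)) :
    UB (⋃ i ∈ s, S i) (∑ i ∈ s, C i) (fun p => ∏ i ∈ s, g i p) := by
  classical
  induction s using Finset.induction_on with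
  | empty =>
    simp only [Finset.prod_empty, Finset.sum_empty]
    exact (UB_one (E := E) (K := K)).mono (Set.empty_subset _) le_rfl
  | insert i s hi ih =>
    simp only [Finset.prod_insert hi, Finset.sum_insert hi]
    refine ((h i (Finset.mem_insert_self _ _)).mul
      (ih fun j hj => h j (Finset.mem_insert_of_mem hj))).mono ?_ le_rfl
    intro v hv
    rcases hv with hv | hv
    · exact Set.mem_biUnion (Finset.mem_insert_self i s) hv
    · obtain ⟨j, hj, hv⟩ := Set.mem_iUnion₂.1 hv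
      exact Set.mem_biUnion (Finset.mem_insert_of_mem hj) hv

theorem finrank_le' : (finrank E K : ℝ) ≤ finrank ℚ K := by
  have h1 : finrank ℚ E * finrank E K = finrank ℚ K := finrank_mul_finrank ℚ E K
  have h2 : 0 < finrank ℚ E := finrank_pos
  have h3 : finrank E K ≤ finrank ℚ K := by
    rw [← h1]
    exact Nat.le_mul_of_pos_left _ h2
  exact_mod_cast h3

/-- a place above -/
theorem av_over {v : HeightOneSpectrum (𝓞 E)} {w : HeightOneSpectrum (𝓞 K)}
    (h : w.asIdeal.LiesOver v.asIdeal) : ∃ c : ℝ, 0 < c ∧ ∀ y : E,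
      av (Sum.inr w : Pl K) (algebraMap E K y) = av (Sum.inr v : Pl E) y ^ c :=
  Pool.Agent.R405.exists_exp (Pool.Agent.TeamU.over_of_liesOver h)

theorem nrmu : S_NRM := by
  intro E _ _ n x i0 hi0
  have hx : x ≠ 0 := fun h0 => one_ne_zero (hi0.symm.trans (congrFun h0 i0))
  refine ⟨{v | nrm (av (Sum.inr v : Pl E)) x ≠ 1}, logHeight x,
    (Bd_nrm x i0 hi0).2.preimage Sum.inr_injective.injOn, logHeight_nonneg _, ?_⟩
  intro K _ _ _
  have hx1 : (fun i => algebraMap E K (x i)) i0 = 1 := by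
    show algebraMap E K (x i0) = 1
    rw [hi0, map_one]
  have hx' : (fun i => algebraMap E K (x i)) ≠ 0 := fun h0 =>
    one_ne_zero (hx1.symm.trans (congrFun h0 i0))
  have hbd : Bd (fun p : Pl K => nrm (av p) fun i => algebraMap E K (x i)) :=
    Bd_nrm (fun i => algebraMap E K (x i)) i0 hx1
  refine ⟨hbd, ?_, ?_⟩
  · have h1 : bdc (fun p : Pl K => nrm (av p) fun i => algebraMap E K (x i)) ≤
        logHeight (fun i => algebraMap E K (x i)) :=
      (HF_bd hbd).mono (HF_nrm _ hx') fun p => le_rfl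
    have h2 : logHeight (fun i => algebraMap E K (x i)) = finrank E K * logHeight x :=
      Pool.Agent.Helper259.HtExt.logHeight_ext (K := E) (L := K) _
    rw [h2] at h1
    exact h1.trans (mul_le_mul_of_nonneg_right finrank_le' (logHeight_nonneg _))
  · intro w hw
    obtain ⟨v, hv⟩ := exists_under (L := E) w
    refine ⟨v, ?_, hv⟩
    intro h1
    apply hw
    obtain ⟨c, hc, hcv⟩ := av_over (K := K) hv
    refine le_antisymm ?_ (hbd.1 (Sum.inr w))
    obtain ⟨i, hi⟩ := exists_nrm (av (Sum.inr w : Pl K)) i0.pos (fun i => algebraMap E K (x i))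
    show nrm (av (Sum.inr w : Pl K)) (fun i => algebraMap E K (x i)) ≤ 1
    rw [← hi, hcv]
    have h2 : av (Sum.inr v : Pl E) (x i) ≤ 1 := by
      rw [← h1]
      exact le_nrm _ x i
    exact Real.rpow_le_one ((av _).nonneg _) h2 hc.le

end Pool.Agent.H432.AU
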