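import Mathlib
import Pool.Agent.H432.AU.Key
import Pool.Agent.H432.AC.Main

/-!
The inequality over all extensions of the field of the certificate.
-/

set_option autoImplicit false
set_option linter.unusedVariables false
set_option linter.unusedSectionVars false

namespace Pool.Agent.H432.AU

open NumberField IsDedekindDomain Height Module MvPolynomial Pool.Agent.N750 Pool.Agent.H432.RC
open Pool.Agent.H432.TC (Bd Bd_nrm bdc le_prod_bd DM DM_fin mk_lt_iff exists_under fin_sub_le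
  swap_ht)
open Pool.Agent.W180.OP (Pl av nrm le_nrm nrm_pos exists_nrm nrm_nonneg)
open Pool.Agent.Q290.NF (ell ell_pos ind_pos wt wt_mono wt_or_le wt_nonneg)
open Pool.Agent.H432.AC (Rel Cert MeetT MeetT_fin wt_sum LHS not_dvd_line lhs_crude)

/-- the truncated inequality with discriminants for finite sets of points over `E` -/
def LineU (E : Type) [Field E] [NumberField E] (R : ℕ → Prop) : Prop :=
  ∀ (A : Finset E) (S : Set (HeightOneSpectrum (𝓞 E))), S.Finite → ∀ ε : ℝ, 0 < ε →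
  ∃ C : ℝ, ∀ (K : Type) [Field K] [NumberField K] [Algebra E K], R (finrank ℚ K) → ∀ x : K,
    (∀ α ∈ A, x ≠ algebraMap E K α) →
      ((A.card : ℝ) - 1 - ε) * logHeight₁ x ≤
        wt (fun v : HeightOneSpectrum (𝓞 K) => ¬ Ov S v ∧
          (1 < v.valuation K x ∨ ∃ α ∈ A, v.valuation K (x - algebraMap E K α) < 1)) +
        Real.log |(discr K : ℝ)| + finrank ℚ K * C

theorem av_gt_one {K : Type} [Field K] [NumberField K] {v : HeightOneSpectrum (𝓞 K)} {x : K}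
    (h : 1 < v.valuation K x) : 1 < av (Sum.inr v : Pl K) x := by
  have h1 : FinitePlace.mk v 1 < FinitePlace.mk v x := mk_lt_iff.2 (by rwa [map_one])
  have h2 : (FinitePlace.mk v) (1 : K) = 1 := map_one (av (Sum.inr v : Pl K))
  rw [h2] at h1
  exact h1

theorem av_lt_one {K : Type} [Field K] [NumberField K] {v : HeightOneSpectrum (𝓞 K)} {x : K}
    (h : v.valuation K x < 1) : av (Sum.inr v : Pl K) x < 1 := by
  have h1 : FinitePlace.mk v x < FinitePlace.mk v 1 := mk_lt_iff.2 (by rwa [map_one])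
  have h2 : (FinitePlace.mk v) (1 : K) = 1 := map_one (av (Sum.inr v : Pl K))
  rw [h2] at h1
  exact h1

/-- **the inequality for the points `b a` and infinity** -/
theorem abcEU {E : Type} [Field E] [NumberField E] {R : ℕ → Prop} (hl : LineU E R) {ν : ℕ}
    (b : Fin ν → E) (hb : Function.Injective b)
    (Bad : Set (HeightOneSpectrum (𝓞 E))) (hBad : Bad.Finite) (ε : ℝ) (hε : 0 < ε) :
    ∃ C0 : ℝ, ∀ (K : Type) [Field K] [NumberField K] [Algebra E K], R (finrank ℚ K) →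
      ∀ t0 : K, (∀ a, t0 ≠ algebraMap E K (b a)) →
      ((ν : ℝ) - 1 - ε) * logHeight ![1, t0] ≤
      wt (fun v => ¬ Ov Bad v ∧ MeetT (fun a => algebraMap E K (b a)) t0 v) +
        Real.log |(discr K : ℝ)| + finrank ℚ K * C0 := by
  classical
  set B1 : Set (HeightOneSpectrum (𝓞 E)) := ⋃ a, {v | nrm (av (Sum.inr v : Pl E)) ![1, b a] ≠ 1}
    with hB1
  have hB1f : B1.Finite := Set.finite_iUnion fun a =>
    (Bd_nrm (![1, b a] : Fin 2 → E) 0 rfl).2.preimage Sum.inr_injective.injOn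
  set A : Finset E := Finset.univ.image b with hA
  have hcard : (A.card : ℝ) = ν := by
    rw [hA, Finset.card_image_of_injective _ hb, Finset.card_univ, Fintype.card_fin]
  obtain ⟨C, hC⟩ := hl A (Bad ∪ B1) (hBad.union hB1f) ε hε
  refine ⟨C, fun K _ _ _ hK t0 ht => ?_⟩
  have h1 := hC K hK t0 (by
    intro α hα
    obtain ⟨a, -, rfl⟩ := Finset.mem_image.1 hα
    exact ht a)
  rw [hcard, logHeight₁_eq_logHeight, swap_ht] at h1
  refine h1.trans ?_
  rw [add_le_add_iff_right, add_le_add_iff_right]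
  refine wt_mono ((MeetT_fin _ t0 ht).subset fun v hv => hv.2) ?_
  rintro v ⟨hv, hv2⟩
  refine ⟨fun ⟨v0, hv0, h⟩ => hv ⟨v0, Or.inl hv0, h⟩, ?_⟩
  have hb1 : ∀ a, av (Sum.inr v : Pl K) (algebraMap E K (b a)) ≤ 1 := by
    intro a
    obtain ⟨v0, hv0⟩ := exists_under (L := E) v
    obtain ⟨c, hc, hcv⟩ := av_over (K := K) hv0
    rw [hcv]
    refine Real.rpow_le_one ((av _).nonneg _) ?_ hc.le
    have h3 : nrm (av (Sum.inr v0 : Pl E)) ![1, b a] = 1 := by
      by_contra hcon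
      exact hv ⟨v0, Or.inr (Set.mem_iUnion.2 ⟨a, hcon⟩), hv0⟩
    rw [← h3]
    exact nrm2_ge _ (b a)
  have hR1 := nrm2_pos (Sum.inr v : Pl K) t0
  have hle : ∀ a, av (Sum.inr v : Pl K) (t0 - algebraMap E K (b a)) ≤
      nrm (av (Sum.inr v : Pl K)) ![1, t0] := by
    intro a
    exact (fin_sub_le v t0 _).trans (max_le (nrm2_ge _ t0) ((hb1 a).trans hR1))
  unfold MeetT
  rw [map_prod]
  rcases hv2 with hp | ⟨α, hα, hp⟩
  · have h2 : 1 < nrm (av (Sum.inr v : Pl K)) ![1, t0] :=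
      (av_gt_one hp).trans_le (nrm2_ge _ t0)
    calc ∏ a, av (Sum.inr v : Pl K) (t0 - algebraMap E K (b a)) ≤
          ∏ _a : Fin ν, nrm (av (Sum.inr v : Pl K)) ![1, t0] :=
          Finset.prod_le_prod (fun a _ => (av _).nonneg _) fun a _ => hle a
      _ = nrm (av (Sum.inr v : Pl K)) ![1, t0] ^ ν := by
          rw [Finset.prod_const, Finset.card_univ, Fintype.card_fin]
      _ < _ := pow_lt_pow_right₀ h2 (Nat.lt_succ_self ν)
  · obtain ⟨a, -, rfl⟩ := Finset.mem_image.1 hα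
    have h2 := av_lt_one hp
    have h3 : av (Sum.inr v : Pl K) t0 ≤ 1 := by
      have h4 : t0 = (t0 - algebraMap E K (b a)) - (-algebraMap E K (b a)) := by ring
      rw [h4]
      refine (fin_sub_le v _ _).trans (max_le h2.le ?_)
      rw [AbsoluteValue.map_neg]
      exact hb1 a
    have h5 : nrm (av (Sum.inr v : Pl K)) ![1, t0] = 1 := by
      refine le_antisymm ?_ hR1
      obtain ⟨i, hi⟩ := exists_nrm (av (Sum.inr v : Pl K)) (n := 2) (by norm_num) ![1, t0]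
      rw [← hi]
      match i with
      | 0 => exact (map_one _).le
      | 1 => exact h3
    rw [h5, one_pow, ← Finset.mul_prod_erase _ _ (Finset.mem_univ a)]
    have h7 : ∏ a' ∈ Finset.univ.erase a, av (Sum.inr v : Pl K) (t0 - algebraMap E K (b a')) ≤ 1 :=
      Finset.prod_le_one (fun _ _ => (av _).nonneg _) fun a' _ => by
        have := hle a'
        rwa [h5] at this
    have h8 : 0 ≤ ∏ a' ∈ Finset.univ.erase a,
        av (Sum.inr v : Pl K) (t0 - algebraMap E K (b a')) :=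
      Finset.prod_nonneg fun _ _ => (av _).nonneg _
    have h9 := (av (Sum.inr v : Pl K)).nonneg (t0 - algebraMap E K (b a))
    nlinarith

theorem log_discr_nonneg (K : Type) [Field K] [NumberField K] :
    0 ≤ Real.log |(discr K : ℝ)| := by
  refine Real.log_nonneg ?_
  have h1 : discr K ≠ 0 := discr_ne_zero K
  have h2 : 1 ≤ |discr K| := Int.one_le_abs h1
  exact_mod_cast h2

/-- **the inequality over all extensions of the field of the certificate** -/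
theorem ari2U (locbu : S_LOCBU) (finu : S_FINU) {k E : Type} [Field k] [NumberField k] [Field E]
    [NumberField E] [Algebra k E] {R : ℕ → Prop} (hl : LineU E R)
    {M g q w n' : ℕ} {G : Fin g → MvPolynomial (Fin M) k} {e : Fin g → ℕ}
    (hG : ∀ i, (G i).IsHomogeneous (e i)) (hsm : Sm (n' + 1) G)
    {F : Fin q → Fin w → MvPolynomial (Fin M) k} {δ : Fin q → ℕ}
    {P : MvPolynomial (Fin 2) E} (hP : Irreducible P) {φ : Fin M → MvPolynomial (Fin 2) E}
    (hX : ∀ i, P ∣ aeval φ (G i)) (hC : Cert n' G F δ P φ) :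
    ∃ c : Fin 2, ∀ S' : Set (HeightOneSpectrum (𝓞 E)), S'.Finite → ∀ ε : ℝ, 0 < ε →
      ∃ C0 : ℝ, 0 ≤ C0 ∧
      ∀ (K : Type) [Field K] [NumberField K] [Algebra E K] [Algebra k K] [IsScalarTower k E K],
      R (finrank ℚ K) → ∀ z : Fin 2 → K, aeval z P = 0 → ptU φ z ≠ 0 →
      (∀ i, ∃ j, aeval (ptU φ z) (F i j) ≠ 0) → ∀ A, IsTB (p := n' + 2) G (ptU φ z) A →
      LHS F δ (ptU φ z) A ≤ wt (fun v => ¬ Ov S' v ∧ DM F δ (ptU φ z) v) +
        Real.log |(discr K : ℝ)| + ε * logHeight ![1, z c] + finrank ℚ K * C0 := by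
  classical
  obtain ⟨c, ν, e', b, Q, Γ, h1, h2, h3, h4, h5, ⟨J0, h6⟩, h7, h8, h9, h10⟩ := hC
  obtain ⟨Bad, C1, hBad, hC10, hmain⟩ := ari1U locbu hsm hX h1 h2 h7 h8 h9 h10
  obtain ⟨Ca, hCa0, hCa⟩ := finu E M P Q φ hP h5
  obtain ⟨Cb, hCb0, hCb⟩ := finu E M P (Γ J0) φ hP h6
  choose Cc hCc0 hCc using fun a => finu E M P (X c - C (b a)) φ hP (not_dvd_line h4 (b a))
  obtain ⟨C4, hC4, hcrude⟩ := lhs_crude hG hsm F δ
  refine ⟨c, fun S' hS' ε hε => ?_⟩
  obtain ⟨C2, hC2⟩ := abcEU hl b h3 (S' ∪ Bad) (hS'.union hBad) ε hε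
  set Cm : ℝ := Ca + Cb + ∑ a, Cc a with hCm
  have hCcs : 0 ≤ ∑ a, Cc a := Finset.sum_nonneg fun a _ => hCc0 a
  have hCm0 : 0 ≤ Cm := by positivity
  have hδ : 0 ≤ ∑ i, (δ i : ℝ) := Finset.sum_nonneg fun i _ => Nat.cast_nonneg _
  refine ⟨(C4 + ∑ i, (δ i : ℝ)) * Cm + C4 + (C1 + |C2|), by positivity, ?_⟩
  intro K _ _ _ _ _ hK z hz hx hxF A hA
  have hd : (0 : ℝ) ≤ finrank ℚ K := Nat.cast_nonneg _
  have hdisc := log_discr_nonneg K
  have hwt := wt_nonneg (fun v => ¬ Ov S' v ∧ DM F δ (ptU φ z) v)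
  have hε1 : 0 ≤ ε * logHeight ![1, z c] := mul_nonneg hε.le (logHeight_nonneg _)
  have hexc : logHeight (ptU φ z) ≤ finrank ℚ K * Cm →
      LHS F δ (ptU φ z) A ≤ wt (fun v => ¬ Ov S' v ∧ DM F δ (ptU φ z) v) +
        Real.log |(discr K : ℝ)| + ε * logHeight ![1, z c] +
        finrank ℚ K * ((C4 + ∑ i, (δ i : ℝ)) * Cm + C4 + (C1 + |C2|)) := by
    intro hb
    have hxX : ∀ i, aeval (ptU φ z) (G i) = 0 := by
      intro i
      obtain ⟨R, hR⟩ := hX i
      rw [← eval_aevU, hR, map_mul, hz, zero_mul]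
    have g1 := hcrude K (ptU φ z) hx hxX A hA
    have g2 : (C4 + ∑ i, (δ i : ℝ)) * logHeight (ptU φ z) ≤
        (C4 + ∑ i, (δ i : ℝ)) * (finrank ℚ K * Cm) := mul_le_mul_of_nonneg_left hb (by positivity)
    have g3 : (finrank k K : ℝ) * C4 ≤ finrank ℚ K * C4 :=
      mul_le_mul_of_nonneg_right finrank_le' hC4
    have g4 : (finrank ℚ K : ℝ) * ((C4 + ∑ i, (δ i : ℝ)) * Cm + C4 + (C1 + |C2|)) =
        (C4 + ∑ i, (δ i : ℝ)) * (finrank ℚ K * Cm) + finrank ℚ K * C4 +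
        finrank ℚ K * (C1 + |C2|) := by ring
    have g5 : 0 ≤ (finrank ℚ K : ℝ) * (C1 + |C2|) := by positivity
    rw [g4]
    linarith
  by_cases hQ : aeval z Q = 0
  · refine hexc ((hCa K z hz hQ hx).trans (mul_le_mul_of_nonneg_left ?_ hd))
    rw [hCm]
    linarith
  by_cases hΓ : aeval z (Γ J0) = 0
  · refine hexc ((hCb K z hz hΓ hx).trans (mul_le_mul_of_nonneg_left ?_ hd))
    rw [hCm]
    linarith
  by_cases hb : ∃ a, z c = algebraMap E K (b a)
  · obtain ⟨a, ha⟩ := hb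
    refine hexc ((hCc a K z hz ?_ hx).trans (mul_le_mul_of_nonneg_left ?_ hd))
    · rw [map_sub, aeval_X, aeval_C, ha, sub_self]
    · have g1 : Cc a ≤ ∑ a, Cc a :=
        Finset.single_le_sum (f := fun a => Cc a) (fun a _ => hCc0 a) (Finset.mem_univ a)
      rw [hCm]
      linarith
  have hb' : ∀ a, z c ≠ algebraMap E K (b a) := fun a ha => hb ⟨a, ha⟩
  have hMf := MeetT_fin (fun a => algebraMap E K (b a)) (z c) hb'
  have hWf : {v | ¬ Ov S' v ∧ ¬ Ov Bad v ∧ MeetT (fun a => algebraMap E K (b a)) (z c) v ∧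
      ¬ DM F δ (ptU φ z) v}.Finite := hMf.subset fun v hv => hv.2.2.1
  have e1 := hmain K z hz hx hxF hQ ⟨J0, hΓ⟩ hb' A hA hWf.toFinset (by
    intro v hv
    rw [hWf.mem_toFinset] at hv
    exact ⟨hv.2.1, hv.2.2.2, hv.2.2.1⟩)
  rw [wt_sum] at e1
  have e2 := hC2 K hK (z c) hb'
  have hDf : {v | ¬ Ov S' v ∧ DM F δ (ptU φ z) v}.Finite :=
    (DM_fin hx hxF).subset fun v hv => hv.2
  have e3 : wt (fun v => ¬ Ov (S' ∪ Bad) v ∧ MeetT (fun a => algebraMap E K (b a)) (z c) v) ≤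
      wt (fun v => ¬ Ov S' v ∧ ¬ Ov Bad v ∧ MeetT (fun a => algebraMap E K (b a)) (z c) v ∧
        ¬ DM F δ (ptU φ z) v) +
      wt (fun v => ¬ Ov S' v ∧ DM F δ (ptU φ z) v) := by
    refine (wt_mono (Q := fun v => (¬ Ov S' v ∧ ¬ Ov Bad v ∧
      MeetT (fun a => algebraMap E K (b a)) (z c) v ∧ ¬ DM F δ (ptU φ z) v) ∨
      (¬ Ov S' v ∧ DM F δ (ptU φ z) v)) (hWf.union hDf) ?_).trans (wt_or_le hWf hDf)
    rintro v ⟨hv1, hv3⟩
    have hv1' : ¬ Ov S' v := fun ⟨v0, hv0, h⟩ => hv1 ⟨v0, Or.inl hv0, h⟩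
    have hv2' : ¬ Ov Bad v := fun ⟨v0, hv0, h⟩ => hv1 ⟨v0, Or.inr hv0, h⟩
    by_cases h : DM F δ (ptU φ z) v
    · exact Or.inr ⟨hv1', h⟩
    · exact Or.inl ⟨hv1', hv2', hv3, h⟩
  unfold LHS
  have e4 : (finrank ℚ K : ℝ) * C2 ≤ finrank ℚ K * |C2| :=
    mul_le_mul_of_nonneg_left (le_abs_self C2) hd
  have e5 : (finrank ℚ K : ℝ) * ((C4 + ∑ i, (δ i : ℝ)) * Cm + C4 + (C1 + |C2|)) =
      finrank ℚ K * ((C4 + ∑ i, (δ i : ℝ)) * Cm + C4) + finrank ℚ K * C1 +
        finrank ℚ K * |C2| := by ring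
  have e6 : 0 ≤ (finrank ℚ K : ℝ) * ((C4 + ∑ i, (δ i : ℝ)) * Cm + C4) := by positivity
  rw [e5]
  linarith

end Pool.Agent.H432.AU
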