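import Mathlib
import Pool.Agent.H432.AU.Ari2

/-!
The inequality for the algebraic points on a fixed curve.
-/

set_option autoImplicit false
set_option linter.unusedVariables false
set_option linter.unusedSectionVars false

namespace Pool.Agent.H432.AU

open NumberField IsDedekindDomain Height Module MvPolynomial Pool.Agent.N750 Pool.Agent.H432.RC
open Pool.Agent.H432.TC (DM DM_fin DM_over cnt_ext mem_over exists_under)
open Pool.Agent.W180.OP (Pl av nrm le_nrm nrm_pos exists_nrm nrm_nonneg)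
open Pool.Agent.Q290.NF (ell ell_pos wt wt_mono wt_nonneg)
open Pool.Agent.H432.AC (Rel Cert LHS)

section ext

variable {L E K₀ K : Type} [Field L] [Field E] [Field K₀] [Field K] [Algebra L E] [Algebra L K₀]
  [Algebra L K] [Algebra E K] [Algebra K₀ K] [IsScalarTower L E K] [IsScalarTower L K₀ K]

theorem aeval_mpU (z : Fin 2 → K₀) (P : MvPolynomial (Fin 2) L) :
    aeval (fun i => algebraMap K₀ K (z i)) (MvPolynomial.map (algebraMap L E) P) =
      algebraMap K₀ K (aeval z P) := by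
  rw [aeval_map_algebraMap]
  exact aeval_algebraMap_apply K z P

theorem ptU_mp {M : ℕ} (φ : Fin M → MvPolynomial (Fin 2) L) (z : Fin 2 → K₀) :
    ptU (fun l => MvPolynomial.map (algebraMap L E) (φ l)) (fun i => algebraMap K₀ K (z i)) =
      fun l => algebraMap K₀ K (ptU φ z l) := by
  funext l
  exact aeval_mpU z (φ l)

end ext

/-- the left side in an extension -/
theorem LHS_ext {k K₀ K : Type} [Field k] [NumberField k] [Field K₀] [NumberField K₀] [Field K] [NumberField K]
    [Algebra k K₀] [Algebra k K] [Algebra K₀ K] [IsScalarTower k K₀ K] {M q w n' : ℕ}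
    (F : Fin q → Fin w → MvPolynomial (Fin M) k) (δ : Fin q → ℕ) (x : Fin M → K₀)
    (A : Fin M → Fin (n' + 2) → K₀) :
    LHS F δ (fun l => algebraMap K₀ K (x l)) (fun l c => algebraMap K₀ K (A l c)) =
      finrank K₀ K * LHS F δ x A := by
  unfold LHS
  have a1 : logHeight (mv (fun l c => algebraMap K₀ K (A l c))) =
      finrank K₀ K * logHeight (mv A) := by
    have : mv (fun l c => algebraMap K₀ K (A l c)) = fun J => algebraMap K₀ K (mv A J) := by
      funext J
      exact mv_map A J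
    rw [this]
    exact Pool.Agent.Helper259.HtExt.logHeight_ext (K := K₀) (L := K) (mv A)
  have a2 : logHeight (fun l => algebraMap K₀ K (x l)) = finrank K₀ K * logHeight x :=
    Pool.Agent.Helper259.HtExt.logHeight_ext (K := K₀) (L := K) _
  have a3 : ∀ i, logHeight (fun j => aeval (fun l => algebraMap K₀ K (x l)) (F i j)) =
      finrank K₀ K * logHeight (fun j => aeval x (F i j)) := by
    intro i
    have : (fun j => aeval (fun l => algebraMap K₀ K (x l)) (F i j)) =
        fun j => algebraMap K₀ K (aeval x (F i j)) := by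
      funext j
      exact aeval_am _ _
    rw [this]
    exact Pool.Agent.Helper259.HtExt.logHeight_ext (K := K₀) (L := K) _
  simp only [a1, a2, a3]
  rw [mul_add, mul_sub, Finset.mul_sum]
  congr 1
  · ring
  · exact Finset.sum_congr rfl fun i _ => by ring

/-- primes over primes -/
theorem Ov_tower {L E K₀ K : Type} [Field L] [NumberField L] [Field E] [NumberField E] [Field K₀]
    [NumberField K₀] [Field K] [NumberField K] [Algebra L E] [Algebra L K₀] [Algebra L K]
    [Algebra E K] [Algebra K₀ K] [IsScalarTower L E K] [IsScalarTower L K₀ K]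
    {S : Set (HeightOneSpectrum (𝓞 L))} {w : HeightOneSpectrum (𝓞 K)}
    {v : HeightOneSpectrum (𝓞 K₀)} (hv : w.asIdeal.LiesOver v.asIdeal) (h : Ov S v) :
    Ov {u : HeightOneSpectrum (𝓞 E) | Ov S u} w := by
  obtain ⟨u, hu, huv⟩ := h
  obtain ⟨u', hu'⟩ := exists_under (L := E) w
  refine ⟨u', ⟨u, hu, ?_⟩, hu'⟩
  have h1 : w.asIdeal.LiesOver u.asIdeal := Ideal.LiesOver.trans w.asIdeal v.asIdeal u.asIdeal
  exact Ideal.LiesOver.tower_bot w.asIdeal u'.asIdeal u.asIdeal

theorem Ov_fin {L E : Type} [Field L] [NumberField L] [Field E] [NumberField E] [Algebra L E]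
    (S : Finset (HeightOneSpectrum (𝓞 L))) :
    {u : HeightOneSpectrum (𝓞 E) | Ov (S : Set (HeightOneSpectrum (𝓞 L))) u}.Finite := by
  classical
  refine (S.biUnion fun v => (over_fin E v).toFinset).finite_toSet.subset ?_
  rintro u ⟨v, hv, hu⟩
  rw [Finset.mem_coe, Finset.mem_biUnion]
  exact ⟨v, hv, mem_over.2 hu⟩

/-- **the inequality for the algebraic points on a fixed curve** -/
theorem ari3U (locbu : S_LOCBU) (finu : S_FINU) (htu : S_HTU) (discu : S_DISCU)
    {k L E Ω : Type} [Field k]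
    [NumberField k] [Field L] [NumberField L] [Field E] [NumberField E] [Field Ω] [Algebra k L]
    [Algebra k E] [Algebra L E] [IsScalarTower k L E] [Algebra L Ω] [Algebra E Ω]
    [IsScalarTower L E Ω] [IsAlgClosed Ω] {R0 R : ℕ → Prop}
    (hR : ∀ n m, R0 n → m ≤ n * finrank L E → R m) (hl : LineU E R)
    {M g q w n' : ℕ} {G : Fin g → MvPolynomial (Fin M) k} {e : Fin g → ℕ}
    (hG : ∀ i, (G i).IsHomogeneous (e i)) (hsm : Sm (n' + 1) G)
    {F : Fin q → Fin w → MvPolynomial (Fin M) k} {δ : Fin q → ℕ}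
    {P : MvPolynomial (Fin 2) L} (hP : Irreducible (MvPolynomial.map (algebraMap L Ω) P))
    {φ : Fin M → MvPolynomial (Fin 2) L} (hX : ∀ i, P ∣ aeval φ (G i)) (l0 l1 : Fin M)
    (hl1 : ¬ P ∣ φ l1)
    (hnon : ∀ c0 : Ω, ¬ MvPolynomial.map (algebraMap L Ω) P ∣
      MvPolynomial.map (algebraMap L Ω) (φ l0) - C c0 * MvPolynomial.map (algebraMap L Ω) (φ l1))
    (hC : Cert n' G F δ (MvPolynomial.map (algebraMap L E) P)
      (fun l => MvPolynomial.map (algebraMap L E) (φ l)))
    (S : Finset (HeightOneSpectrum (𝓞 L))) (ε : ℝ) (hε : 0 < ε) :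
    ∃ C0 : ℝ, ∀ (K₀ : Type) [Field K₀] [NumberField K₀] [Algebra L K₀] [Algebra k K₀]
      [IsScalarTower k L K₀], R0 (finrank ℚ K₀) → ∀ z : Fin 2 → K₀, aeval z P = 0 →
      ptU φ z ≠ 0 → (∀ i, ∃ j, aeval (ptU φ z) (F i j) ≠ 0) →
      ∀ A, IsTB (p := n' + 2) G (ptU φ z) A →
      LHS F δ (ptU φ z) A ≤
        wt (fun v => ¬ Ov (S : Set (HeightOneSpectrum (𝓞 L))) v ∧ DM F δ (ptU φ z) v) +
        Real.log |(discr K₀ : ℝ)| + ε * logHeight (ptU φ z) + finrank ℚ K₀ * C0 := by
  classical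
  have hPΩ : MvPolynomial.map (algebraMap L Ω) P =
      MvPolynomial.map (algebraMap E Ω) (MvPolynomial.map (algebraMap L E) P) := by
    rw [MvPolynomial.map_map, ← IsScalarTower.algebraMap_eq]
  have hPE : Irreducible (MvPolynomial.map (algebraMap L E) P) := by
    refine AC.PHT.irr_of_map (algebraMap E Ω) _ ?_
    rw [← hPΩ]
    exact hP
  obtain ⟨c, hmain⟩ := ari2U locbu finu hl hG hsm hPE
    (φ := fun l => MvPolynomial.map (algebraMap L E) (φ l))
    (by
      intro i
      rw [AC.PDESC.map_aeval']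
      exact map_dvd _ (hX i)) hC
  obtain ⟨C1, hC1, hht⟩ := htu L Ω M P φ c l0 l1 hP hl1 hnon
  obtain ⟨CD, hCD, hD⟩ := discu L E
  obtain ⟨C2, hC20, hC2⟩ := hmain {u | Ov (S : Set (HeightOneSpectrum (𝓞 L))) u} (Ov_fin S)
    (ε / (C1 + 1)) (by positivity)
  refine ⟨CD + C2 + ε, ?_⟩
  intro K₀ _ _ _ _ _ hK0 z hzP hx hxF A hA
  obtain ⟨K, iF, iN, iA0, iAE, iAL, t1, t2, hfr, hdisc⟩ := hD K₀
  let _ : Algebra k K := ((algebraMap K₀ K).comp (algebraMap k K₀)).toAlgebra
  have t3 : IsScalarTower k K₀ K := IsScalarTower.of_algebraMap_eq fun x => rfl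
  have t4 : IsScalarTower k E K := IsScalarTower.of_algebraMap_eq fun x => by
    rw [IsScalarTower.algebraMap_apply k L E x, ← IsScalarTower.algebraMap_apply L E K,
      IsScalarTower.algebraMap_apply L K₀ K, ← IsScalarTower.algebraMap_apply k L K₀]
    rfl
  have hRK : R (finrank ℚ K) := by
    refine hR (finrank ℚ K₀) _ hK0 ?_
    rw [← finrank_mul_finrank ℚ K₀ K]
    exact Nat.mul_le_mul_left _ hfr
  have hf : (0 : ℝ) < finrank K₀ K := by exact_mod_cast finrank_pos
  have hd0 : (0 : ℝ) < finrank ℚ K₀ := by exact_mod_cast finrank_pos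
  have hd : (finrank ℚ K : ℝ) = finrank ℚ K₀ * finrank K₀ K := by
    exact_mod_cast (finrank_mul_finrank ℚ K₀ K).symm
  have e1 := hC2 K hRK (fun i => algebraMap K₀ K (z i)) (by
    rw [aeval_mpU, hzP, map_zero]) (by
    rw [ptU_mp]
    intro h
    apply hx
    funext l
    exact (map_eq_zero _).1 (congrFun h l)) (by
    intro i
    obtain ⟨j, hj⟩ := hxF i
    refine ⟨j, ?_⟩
    rw [ptU_mp, aeval_am]
    exact (map_ne_zero _).2 hj) (fun l c => algebraMap K₀ K (A l c)) (by
    rw [ptU_mp]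
    exact IsTB_map G _ A hA)
  rw [ptU_mp, LHS_ext] at e1
  set x := ptU φ z with hxd
  have e3 : logHeight (![1, algebraMap K₀ K (z c)] : Fin 2 → K) =
      finrank K₀ K * logHeight (![1, z c] : Fin 2 → K₀) := by
    have h1 : (![1, algebraMap K₀ K (z c)] : Fin 2 → K) =
        fun i => algebraMap K₀ K (![1, z c] i) := by
      funext i
      fin_cases i
      · exact (map_one _).symm
      · rfl
    rw [h1]
    exact Pool.Agent.Helper259.HtExt.logHeight_ext (K := K₀) (L := K) _
  have hDf : {v | ¬ Ov (S : Set (HeightOneSpectrum (𝓞 L))) v ∧ DM F δ x v}.Finite :=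
    (DM_fin hx hxF).subset fun v hv => hv.2
  have e4 := (cnt_ext (L := K₀) (E := K)
    (fun v => ¬ Ov (S : Set (HeightOneSpectrum (𝓞 L))) v ∧ DM F δ x v) hDf
    (fun v => ¬ Ov {u : HeightOneSpectrum (𝓞 E) | Ov (S : Set (HeightOneSpectrum (𝓞 L))) u} v ∧
      DM F δ (fun l => algebraMap K₀ K (x l)) v) (by
      rintro Q ⟨hQ, hQD⟩
      obtain ⟨v, hv⟩ := exists_under (L := K₀) Q
      exact ⟨v, ⟨fun hvS => hQ (Ov_tower hv hvS), DM_over (E := K) hx hv hQD⟩, hv⟩)).2
  have e5 := hht K₀ z hzP hx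
  have e6 : logHeight (fun i => aeval z (φ i)) = logHeight x := rfl
  rw [e6] at e5
  rw [e3] at e1
  set H := logHeight (![1, z c] : Fin 2 → K₀) with hH
  set W := wt (fun v => ¬ Ov (S : Set (HeightOneSpectrum (𝓞 L))) v ∧ DM F δ x v) with hW
  have hH0 : 0 ≤ H := logHeight_nonneg _
  have hx0 : 0 ≤ logHeight x := logHeight_nonneg _
  have hdisc' : Real.log |(discr K : ℝ)| ≤
      finrank K₀ K * (Real.log |(discr K₀ : ℝ)| + finrank ℚ K₀ * CD) := by
    have hdK : (0 : ℝ) < finrank ℚ K := by exact_mod_cast finrank_pos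
    have g1 := mul_le_mul_of_nonneg_right hdisc hdK.le
    rw [div_mul_cancel₀ _ hdK.ne'] at g1
    refine g1.trans (le_of_eq ?_)
    rw [hd]
    field_simp
  have e7 : finrank K₀ K * LHS F δ x A ≤ finrank K₀ K * (W + Real.log |(discr K₀ : ℝ)| +
      ε / (C1 + 1) * H + finrank ℚ K₀ * (CD + C2)) := by
    have g1 : finrank K₀ K * (W + Real.log |(discr K₀ : ℝ)| +
        ε / (C1 + 1) * H + finrank ℚ K₀ * (CD + C2)) =
        finrank K₀ K * W + finrank K₀ K * (Real.log |(discr K₀ : ℝ)| + finrank ℚ K₀ * CD) +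
        ε / (C1 + 1) * (finrank K₀ K * H) + finrank ℚ K * C2 := by
      rw [hd]
      ring
    rw [g1]
    linarith
  have e8 := le_of_mul_le_mul_left e7 hf
  have e9 : ε / (C1 + 1) * H ≤ ε * (logHeight x + finrank ℚ K₀) := by
    have h1 : ε / (C1 + 1) * H ≤ ε / (C1 + 1) * (C1 * (logHeight x + finrank ℚ K₀)) :=
      mul_le_mul_of_nonneg_left e5 (by positivity)
    refine h1.trans ?_
    have h2 : ε / (C1 + 1) * (C1 * (logHeight x + finrank ℚ K₀)) =
        ε * (logHeight x + finrank ℚ K₀) * (C1 / (C1 + 1)) := by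
      field_simp
    rw [h2]
    have h3 : C1 / (C1 + 1) ≤ 1 := by
      rw [div_le_one (by linarith)]
      linarith
    exact mul_le_of_le_one_right (by positivity) h3
  have e10 : (finrank ℚ K₀ : ℝ) * (CD + C2 + ε) = finrank ℚ K₀ * (CD + C2) +
      ε * finrank ℚ K₀ := by ring
  rw [e10]
  linarith

end Pool.Agent.H432.AU
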