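import Mathlib
import Pool.Agent.H432.AU.Ari3

/-!
Constant maps.
-/

set_option autoImplicit false
set_option linter.unusedVariables false
set_option linter.unusedSectionVars false

namespace Pool.Agent.H432.AU

open NumberField IsDedekindDomain Height Module MvPolynomial Pool.Agent.N750 Pool.Agent.H432.RC
open Pool.Agent.W180.OP (Pl av nrm le_nrm nrm_pos exists_nrm nrm_nonneg)
open Pool.Agent.H432.TC (le_prod_bd)
open Pool.Agent.H432.AC (Rel HF HF_bd HF_nrm HF_av)
open Pool.Agent.H432.AC.PHT (hm)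

theorem hm_cst {E R : Type} [CommRing E] [CommRing R] [Algebra E R] (a : Polynomial E) (c : E)
    (g : R) : hm a.natDegree a (algebraMap E R c * g) g =
      algebraMap E R (Polynomial.eval c a) * g ^ a.natDegree := by
  unfold hm
  rw [Polynomial.eval_eq_sum_range, map_sum, Finset.sum_mul]
  refine Finset.sum_congr rfl fun j hj => ?_
  have hj' := Finset.mem_range.1 hj
  have h1 : g ^ a.natDegree = g ^ j * g ^ (a.natDegree - j) := by
    rw [← pow_add]
    congr 1
    omega
  rw [h1, map_mul, map_pow]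
  ring

theorem hm_rel {R ι : Type} [CommRing R] {P f g : MvPolynomial (Fin 2) R} {q : Polynomial R}
    (hq : q.Monic) (h : P ∣ hm q.natDegree q f g) : Rel P (fun _ : Unit => g) f := by
  refine ⟨q.natDegree, fun i => C (q.coeff i) * X () ^ (q.natDegree - i), fun i => ?_, ?_⟩
  · have h1 := (isHomogeneous_C Unit (q.coeff i)).mul
      ((isHomogeneous_X R ()).pow (q.natDegree - i))
    rw [zero_add, one_mul] at h1
    exact h1
  · have h1 : f ^ q.natDegree + ∑ i : Fin q.natDegree, aeval (fun _ : Unit => g)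
        (C (q.coeff i) * X () ^ (q.natDegree - i) : MvPolynomial Unit R) * f ^ (i : ℕ) =
        hm q.natDegree q f g := by
      unfold hm
      rw [Finset.sum_range_succ, add_comm]
      congr 1
      · rw [Finset.sum_range]
        refine Finset.sum_congr rfl fun i _ => ?_
        rw [map_mul, map_pow, aeval_X, aeval_C]
        ring
      · have h2 : q.coeff q.natDegree = 1 := hq
        rw [h2, map_one, one_mul, Nat.sub_self, pow_zero, mul_one]
    rw [h1]
    exact h

/-- **constant maps** -/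
theorem const_bdU (locbu : S_LOCBU) {L Ω : Type} [Field L] [NumberField L] [Field Ω] [Algebra L Ω]
    [Algebra.IsAlgebraic L Ω] {M : ℕ} {P : MvPolynomial (Fin 2) L}
    {φ : Fin M → MvPolynomial (Fin 2) L}
    (hcst : ∀ l0 l1, ¬ P ∣ φ l1 → ∃ c0 : Ω, MvPolynomial.map (algebraMap L Ω) P ∣
      MvPolynomial.map (algebraMap L Ω) (φ l0) - C c0 * MvPolynomial.map (algebraMap L Ω) (φ l1)) :
    ∃ C : ℝ, 0 ≤ C ∧ ∀ (K : Type) [Field K] [NumberField K] [Algebra L K] (z : Fin 2 → K),
      aeval z P = 0 → ptU φ z ≠ 0 → logHeight (ptU φ z) ≤ finrank ℚ K * C := by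
  classical
  by_cases hall : ∃ l1, ¬ P ∣ φ l1
  swap
  · push Not at hall
    refine ⟨0, le_rfl, fun K _ _ _ z hz hx => absurd ?_ hx⟩
    funext l
    obtain ⟨r, hr⟩ := hall l
    show aeval z (φ l) = 0
    rw [hr, map_mul, hz, zero_mul]
  obtain ⟨l1, hl1⟩ := hall
  obtain ⟨r, hr⟩ := AC.PDESC.exists_rt L Ω
  have hrel : ∀ l, Rel P (fun _ : Unit => φ l1) (φ l) := by
    intro l
    obtain ⟨c0, hc0⟩ := hcst l l1 hl1
    have hint : IsIntegral L c0 := Algebra.IsIntegral.isIntegral c0
    set q := minpoly L c0 with hq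
    refine hm_rel (ι := Unit) (minpoly.monic hint) ?_
    refine AC.PDESC.dvd_desc r hr ?_
    have h2 : MvPolynomial.map (algebraMap L Ω) (hm q.natDegree q (φ l) (φ l1)) =
        hm q.natDegree (q.map (algebraMap L Ω)) (MvPolynomial.map (algebraMap L Ω) (φ l))
          (MvPolynomial.map (algebraMap L Ω) (φ l1)) := by
      unfold hm
      rw [map_sum]
      refine Finset.sum_congr rfl fun j _ => ?_
      rw [map_mul, map_mul, map_pow, map_pow, Polynomial.coeff_map,
        MvPolynomial.algebraMap_eq, MvPolynomial.algebraMap_eq, MvPolynomial.map_C]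
    rw [h2]
    set f := MvPolynomial.map (algebraMap L Ω) (φ l) with hf
    set g := MvPolynomial.map (algebraMap L Ω) (φ l1) with hg
    have hdeg : (q.map (algebraMap L Ω)).natDegree = q.natDegree := Polynomial.natDegree_map _
    have h3 : MvPolynomial.map (algebraMap L Ω) P ∣
        hm q.natDegree (q.map (algebraMap L Ω)) f g -
        hm q.natDegree (q.map (algebraMap L Ω)) (algebraMap Ω _ c0 * g) g := by
      unfold hm
      rw [← Finset.sum_sub_distrib]
      refine Finset.dvd_sum fun j _ => ?_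
      have h4 : f - algebraMap Ω (MvPolynomial (Fin 2) Ω) c0 * g ∣
          f ^ j - (algebraMap Ω (MvPolynomial (Fin 2) Ω) c0 * g) ^ j := sub_dvd_pow_sub_pow _ _ _
      have h5 := hc0.trans h4
      obtain ⟨s, hs⟩ := h5
      refine ⟨algebraMap Ω (MvPolynomial (Fin 2) Ω) ((q.map (algebraMap L Ω)).coeff j) * s *
        g ^ (q.natDegree - j), ?_⟩
      linear_combination (algebraMap Ω (MvPolynomial (Fin 2) Ω)
        ((q.map (algebraMap L Ω)).coeff j) * g ^ (q.natDegree - j)) * hs
    have h6 := hm_cst (R := MvPolynomial (Fin 2) Ω) (q.map (algebraMap L Ω)) c0 g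
    rw [hdeg] at h6
    have h7 : Polynomial.eval c0 (q.map (algebraMap L Ω)) = 0 := by
      rw [Polynomial.eval_map_algebraMap]
      exact minpoly.aeval L c0
    rw [h7, map_zero, zero_mul] at h6
    rw [h6, sub_zero] at h3
    exact h3
  choose S C0 hS hC0 hb using fun l => rel_bdU locbu (hrel l)
  refine ⟨∑ l, C0 l, Finset.sum_nonneg fun l _ => hC0 l, fun K _ _ _ z hz hx => ?_⟩
  choose Cb hCb hbd using fun l => hb l K
  have hbd' : ∀ l (p : Pl K), av p (ptU φ z l) ≤ Cb l p * av p (ptU φ z l1) := by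
    intro l p
    obtain ⟨-, h1⟩ := hbd l z hz p
    exact h1
  have h1 : ptU φ z l1 ≠ 0 := by
    intro h0
    apply hx
    funext l
    obtain ⟨w⟩ : Nonempty (InfinitePlace K) := inferInstance
    have h2 := hbd' l (Sum.inl w)
    rw [h0, map_zero, mul_zero] at h2
    exact (av (Sum.inl w : Pl K)).eq_zero.1 (le_antisymm h2 ((av _).nonneg _))
  have hU : UB (⋃ l ∈ (Finset.univ : Finset (Fin M)), S l) (∑ l, C0 l) (fun p : Pl K =>
      ∏ l, Cb l p) := UB.prod _ _ _ _ fun l _ => hCb l
  have h2 := (HF_nrm (ptU φ z) hx).mono ((HF_bd hU.1).add (HF_av _ h1)) (by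
    intro p
    obtain ⟨l, hl⟩ := exists_nrm (av p) l1.pos (ptU φ z)
    have g1 := nrm_pos (av p) hx
    have g2 := hU.1.1 p
    have g3 : 0 < av p (ptU φ z l1) := (av p).pos_iff.2 h1
    rw [← Real.log_mul (by linarith) g3.ne']
    refine Real.log_le_log g1 ?_
    rw [← hl]
    refine (hbd' l p).trans (mul_le_mul_of_nonneg_right ?_ g3.le)
    exact le_prod_bd Finset.univ (fun l => Cb l p) (fun l _ => (hCb l).1.1 p) (Finset.mem_univ l))
  rw [add_zero] at h2
  exact h2.trans hU.2.1

end Pool.Agent.H432.AU
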