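import Mathlib
import Pool.Agent.H432.AU.Cst

/-!
The truncated inequality with discriminants for the algebraic points on all curves of bounded degree.
-/

set_option autoImplicit false
set_option linter.unusedVariables false
set_option linter.unusedSectionVars false

namespace Pool.Agent.H432.AU

open NumberField IsDedekindDomain Height Module MvPolynomial Pool.Agent.N750 Pool.Agent.H432.RC
open Pool.Agent.H432.TC (DM DM_fin)
open Pool.Agent.Q290.NF (wt wt_nonneg)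
open Pool.Agent.H432.AC

/-- **the inequality for the algebraic points on all curves of bounded degree** -/
theorem main_acU (locbu : S_LOCBU) (finu : S_FINU) (htu : S_HTU) (discu : S_DISCU)
    {k : Type} [Field k] [NumberField k] {M g q w n' : ℕ}
    (G : Fin g → MvPolynomial (Fin M) k) (e : Fin g → ℕ)
    (hG : ∀ i, (G i).IsHomogeneous (e i)) (hI : (Ideal.span (Set.range G)).IsPrime)
    (hsm : Sm (n' + 1) G) (F : Fin q → Fin w → MvPolynomial (Fin M) k) (δ : Fin q → ℕ)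
    (hF : ∀ i j, (F i j).IsHomogeneous (δ i)) (hnc : NCD G F) (N : ℕ) :
    ∃ (mΦ : ℕ) (Φ : MvPolynomial (Fin M) k), Φ.IsHomogeneous mΦ ∧
      Φ ∉ Ideal.span (Set.range G) ∧
    ∀ (L : Type) [Field L] [NumberField L] [Algebra k L] (R0 : ℕ → Prop),
    (∀ (E : Type) [Field E] [NumberField E] [Algebra L E], ∃ R : ℕ → Prop,
      (∀ n m, R0 n → m ≤ n * finrank L E → R m) ∧ LineU E R) →
    ∀ (P : MvPolynomial (Fin 2) L) (φ : Fin M → MvPolynomial (Fin 2) L),
      Irreducible (MvPolynomial.map (algebraMap L (AlgebraicClosure L)) P) →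
      P.totalDegree ≤ N → (∀ l, (φ l).totalDegree ≤ N) → (∀ i, P ∣ aeval φ (G i)) →
      ¬ P ∣ aeval φ Φ → (∀ i, ∃ j, ¬ P ∣ aeval φ (F i j)) →
    ∀ (S : Finset (HeightOneSpectrum (𝓞 L))) (ε : ℝ), 0 < ε →
    ∃ C0 : ℝ, ∀ (K₀ : Type) [Field K₀] [NumberField K₀] [Algebra L K₀] [Algebra k K₀]
      [IsScalarTower k L K₀], R0 (finrank ℚ K₀) → ∀ z : Fin 2 → K₀, aeval z P = 0 →
      ptU φ z ≠ 0 → (∀ i, ∃ j, aeval (ptU φ z) (F i j) ≠ 0) →
      ∀ A, IsTB (p := n' + 2) G (ptU φ z) A →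
      LHS F δ (ptU φ z) A ≤
        wt (fun v => ¬ Ov (S : Set (HeightOneSpectrum (𝓞 L))) v ∧ DM F δ (ptU φ z) v) +
        Real.log |(discr K₀ : ℝ)| + ε * logHeight (ptU φ z) + finrank ℚ K₀ * C0 := by
  classical
  obtain ⟨mΦ, Φ, h1, h2, h3⟩ := geoU val emb1 emb2 ram (fine derx deru dl) finord derx deru
    (span derx) dl loc trd acl dvd irr (K := AlgebraicClosure k) G e hG hI hsm F δ hF hnc N
  refine ⟨mΦ, Φ, h1, h2, ?_⟩
  intro L _ _ _ R0 hall P φ hP hPd hφd hX hΦ hFne S ε hε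
  let Ω := AlgebraicClosure k
  let _ : Algebra.IsAlgebraic k L := Algebra.IsAlgebraic.of_finite k L
  let ι : L →ₐ[k] Ω := IsAlgClosed.lift
  let _ : Algebra L Ω := ι.toRingHom.toAlgebra
  have htow : IsScalarTower k L Ω := IsScalarTower.of_algebraMap_eq fun x => (ι.commutes x).symm
  have halg : Algebra.IsAlgebraic L Ω := Algebra.IsAlgebraic.tower_top (K := k) L
  have hclos : IsAlgClosure L Ω := ⟨inferInstance, halg⟩
  let eqv := IsAlgClosure.equiv L (AlgebraicClosure L) Ω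
  have hPΩ : Irreducible (MvPolynomial.map (algebraMap L Ω) P) := by
    have h4 : MvPolynomial.map (algebraMap L Ω) P =
        MvPolynomial.mapEquiv (Fin 2) eqv.toRingEquiv
          (MvPolynomial.map (algebraMap L (AlgebraicClosure L)) P) := by
      have h5 : ((eqv.toRingEquiv : AlgebraicClosure L ≃+* Ω) : AlgebraicClosure L →+* Ω).comp
          (algebraMap L (AlgebraicClosure L)) = algebraMap L Ω :=
        RingHom.ext fun x => eqv.commutes x
      rw [MvPolynomial.mapEquiv_apply, MvPolynomial.map_map, h5]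
    rw [h4]
    exact (MulEquiv.irreducible_iff _).2 hP
  have hdeg : ∀ Q : MvPolynomial (Fin 2) L, (MvPolynomial.map (algebraMap L Ω) Q).totalDegree ≤
      Q.totalDegree := fun Q => Finset.sup_mono (MvPolynomial.support_map_subset _ _)
  obtain ⟨r, hr⟩ := PDESC.exists_rt L Ω
  have hnd : ∀ Q : MvPolynomial (Fin 2) L, ¬ P ∣ Q → ¬ MvPolynomial.map (algebraMap L Ω) P ∣
      MvPolynomial.map (algebraMap L Ω) Q := fun Q hQ h => hQ (PDESC.dvd_desc r hr h)
  by_cases hnon : ∃ l0 l1, ¬ P ∣ φ l1 ∧ ∀ c0 : Ω, ¬ MvPolynomial.map (algebraMap L Ω) P ∣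
      MvPolynomial.map (algebraMap L Ω) (φ l0) - C c0 * MvPolynomial.map (algebraMap L Ω) (φ l1)
  swap
  · push Not at hnon
    obtain ⟨Cc, hCc0, hCc⟩ := const_bdU (Ω := Ω) locbu hnon
    obtain ⟨C4, hC4, hcrude⟩ := lhs_crude hG hsm F δ
    refine ⟨(C4 + ∑ i, (δ i : ℝ)) * Cc + C4, ?_⟩
    intro K₀ _ _ _ _ _ _ z hz hx hxF A hA
    have hxX : ∀ i, aeval (ptU φ z) (G i) = 0 := by
      intro i
      obtain ⟨R, hR⟩ := hX i
      rw [← eval_aevU, hR, map_mul, hz, zero_mul]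
    have hδ : 0 ≤ ∑ i, (δ i : ℝ) := Finset.sum_nonneg fun i _ => Nat.cast_nonneg _
    have g1 := hcrude K₀ (ptU φ z) hx hxX A hA
    have g2 : (C4 + ∑ i, (δ i : ℝ)) * logHeight (ptU φ z) ≤
        (C4 + ∑ i, (δ i : ℝ)) * (finrank ℚ K₀ * Cc) :=
      mul_le_mul_of_nonneg_left (hCc K₀ z hz hx) (by positivity)
    have g3 : (finrank k K₀ : ℝ) * C4 ≤ finrank ℚ K₀ * C4 :=
      mul_le_mul_of_nonneg_right finrank_le' hC4
    have g4 : (finrank ℚ K₀ : ℝ) * ((C4 + ∑ i, (δ i : ℝ)) * Cc + C4) =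
        (C4 + ∑ i, (δ i : ℝ)) * (finrank ℚ K₀ * Cc) + finrank ℚ K₀ * C4 := by ring
    have g5 := log_discr_nonneg K₀
    have g6 := wt_nonneg (fun v => ¬ Ov (S : Set (HeightOneSpectrum (𝓞 L))) v ∧
      DM F δ (ptU φ z) v)
    have g7 : 0 ≤ ε * logHeight (ptU φ z) := mul_nonneg hε.le (logHeight_nonneg _)
    rw [g4]
    linarith
  obtain ⟨l0, l1, hl1, hnon⟩ := hnon
  have hcert : Cert n' G F δ (MvPolynomial.map (algebraMap L Ω) P)
      (fun l => MvPolynomial.map (algebraMap L Ω) (φ l)) := by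
    refine h3 _ _ hPΩ ((hdeg P).trans hPd) (fun l => (hdeg _).trans (hφd l))
      ⟨l0, l1, hnd _ hl1, hnon⟩ ?_ ?_ ?_
    · intro i
      rw [PDESC.map_aeval']
      exact map_dvd _ (hX i)
    · rw [PDESC.map_aeval']
      exact hnd _ hΦ
    · intro i
      obtain ⟨j, hj⟩ := hFne i
      refine ⟨j, ?_⟩
      rw [PDESC.map_aeval']
      exact hnd _ hj
  obtain ⟨E, iE1, iE2, iE3, iE4, iE5, iE6, iE7, hcE⟩ := desc k L Ω M g q w n' G F δ P φ hcert
  obtain ⟨R, hR, hl⟩ := hall E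
  exact ari3U (E := E) (Ω := Ω) locbu finu htu discu hR hl hG hsm hPΩ hX l0 l1 hl1 hnon hcE S ε hε

end Pool.Agent.H432.AU
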