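import Mathlib
import Pool.Agent.H432.AU.Main
import Pool.Agent.H432.TC.AbcP

/-!
The abc inequality with discriminants and the inequality for finite sets of points.
-/

set_option autoImplicit false
set_option linter.unusedVariables false
set_option linter.unusedSectionVars false

namespace Pool.Agent.H432.AU

open NumberField IsDedekindDomain Height Module
open Pool.Agent.H432.TC (NE3 NE3_fin logHeight₁_ext)
open Pool.Agent.Q290.NF (ell ell_pos wt wt_mono wt_nonneg wt_or_le Near Gen zero_wt')

/-- the abc inequality with discriminants for all extensions `K` of `E` whose degree satisfies `R` -/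
def ABCD (E : Type) [Field E] [NumberField E] (R : ℕ → Prop) : Prop :=
  ∀ ε : ℝ, 0 < ε → ∃ C : ℝ, ∀ (K : Type) [Field K] [NumberField K] [Algebra E K],
    R (finrank ℚ K) → ∀ P : Fin 3 → K, P 0 + P 1 + P 2 = 0 → P 0 * P 1 * P 2 ≠ 0 →
    logHeight P ≤ (1 + ε) * (wt (NE3 P) + Real.log |(discr K : ℝ)|) + finrank ℚ K * C

/-- the three points `∞`, `1`, `-1` -/
def NearD (E : Type) [Field E] [NumberField E] (R : ℕ → Prop) : Prop :=
  ∀ ε : ℝ, 0 < ε → ∃ C : ℝ, ∀ (K : Type) [Field K] [NumberField K] [Algebra E K],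
    R (finrank ℚ K) → ∀ u : K, Gen u⁻¹ →
      (1 - ε) * logHeight₁ u⁻¹ ≤ wt (fun v => Near u⁻¹ v) +
        Real.log |(discr K : ℝ)| + finrank ℚ K * C

theorem near_of_abc {E : Type} [Field E] [NumberField E] {R : ℕ → Prop} (h : ABCD E R) :
    NearD E R := by
  classical
  intro ε hε
  obtain ⟨C, hC⟩ := h ε hε
  set A0 : Fin 2 × Fin 3 → ℚ := fun x => ![![1, 0, 1/2], ![0, 0, 1/2]] x.1 x.2 with hA0
  set C1 : ℝ := Real.log (Nat.card (Fin 3)) + logHeight A0 with hC1
  have hC10 : 0 ≤ C1 := by
    have h1 : 0 ≤ logHeight A0 := logHeight_nonneg _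
    have h2 : 0 ≤ Real.log (Nat.card (Fin 3)) := Real.log_natCast_nonneg _
    linarith
  set C2 : ℝ := logHeight₁ (2 : ℚ) with hC2
  have hC20 : 0 ≤ C2 := zero_le_logHeight₁ _
  refine ⟨|C| + C1 + C2, fun K _ _ _ hK u hu => ?_⟩
  have hd : (0 : ℝ) < finrank ℚ K := by exact_mod_cast finrank_pos
  have hdisc := log_discr_nonneg K
  have hwn := wt_nonneg (fun v : HeightOneSpectrum (𝓞 K) => Near u⁻¹ v)
  have hh : 0 ≤ logHeight₁ u⁻¹ := zero_le_logHeight₁ _
  obtain ⟨g1, g2, g3⟩ := hu
  have hu0 : u ≠ 0 := fun h => g1 (by rw [h, inv_zero])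
  have hu1 : u - 1 ≠ 0 := by
    intro h0
    apply g2
    rw [sub_eq_zero.1 h0, inv_one]
  have hu2 : u + 1 ≠ 0 := by
    intro h0
    apply g3
    rw [eq_neg_of_add_eq_zero_left h0, inv_neg, inv_one]
  set P : Fin 3 → K := ![u - 1, -(u + 1), 2] with hP
  have hP0 : P 0 = u - 1 := rfl
  have hP1 : P 1 = -(u + 1) := rfl
  have hP2 : P 2 = 2 := rfl
  have hne : ∀ i, P i ≠ 0 := by
    intro i
    fin_cases i
    · exact hu1
    · exact neg_ne_zero.2 hu2
    · exact two_ne_zero
  have h2 := hC K hK P (by rw [hP0, hP1, hP2]; ring)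
    (mul_ne_zero (mul_ne_zero (hne 0) (hne 1)) (hne 2))
  have h3 : logHeight₁ u⁻¹ ≤ finrank ℚ K * C1 + logHeight P := by
    have h4 := logHeight_linearMap_apply_le (fun x => algebraMap ℚ K (A0 x)) P
    have h5 : (fun j => ∑ i, algebraMap ℚ K (A0 (j, i)) * P i) = ![u, 1] := by
      funext j
      rw [Fin.sum_univ_three, hP0, hP1, hP2]
      fin_cases j
      · show algebraMap ℚ K 1 * (u - 1) + algebraMap ℚ K 0 * -(u + 1) +
          algebraMap ℚ K (1 / 2) * 2 = u
        rw [map_one, map_zero, map_div₀, map_one, map_ofNat]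
        ring
      · show algebraMap ℚ K 0 * (u - 1) + algebraMap ℚ K 0 * -(u + 1) +
          algebraMap ℚ K (1 / 2) * 2 = 1
        rw [map_zero, map_div₀, map_one, map_ofNat]
        ring
    rw [h5] at h4
    have h6 : logHeight (fun x => algebraMap ℚ K (A0 x)) = finrank ℚ K * logHeight A0 :=
      Pool.Agent.Helper259.HtExt.logHeight_ext (K := ℚ) (L := K) _
    rw [h6, totalWeight_eq_finrank] at h4
    rw [logHeight₁_inv, logHeight₁_eq_logHeight]
    rw [hC1, mul_add]
    exact h4
  have h7 : wt (fun v : HeightOneSpectrum (𝓞 K) => v.valuation K (2 : K) < 1) ≤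
      finrank ℚ K * C2 := by
    refine (zero_wt' (two_ne_zero)).trans ?_
    have h8 := logHeight₁_ext (L := ℚ) (K := K) 2
    rw [map_ofNat] at h8
    rw [h8]
  have h2f : {v : HeightOneSpectrum (𝓞 K) | v.valuation K (2 : K) < 1}.Finite :=
    Pool.Agent.Q290.NF.fin_zero two_ne_zero
  have hnf : {v : HeightOneSpectrum (𝓞 K) | Near u⁻¹ v}.Finite :=
    Pool.Agent.Q290.NF.fin_near ⟨g1, g2, g3⟩
  have h9 : wt (NE3 P) ≤ wt (fun v => Near u⁻¹ v) +
      wt (fun v : HeightOneSpectrum (𝓞 K) => v.valuation K (2 : K) < 1) := by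
    refine (wt_mono (Q := fun v => Near u⁻¹ v ∨ v.valuation K (2 : K) < 1)
      (hnf.union h2f) fun v hv => ?_).trans (wt_or_le hnf h2f)
    by_contra hcon
    rw [not_or, not_lt] at hcon
    obtain ⟨hcn, m3⟩ := hcon
    unfold Near at hcn
    rw [not_or, not_or, not_lt, not_lt, not_lt] at hcn
    obtain ⟨c1, c2, c3⟩ := hcn
    have hv0 : v.valuation K u ≠ 0 := (Valuation.ne_zero_iff _).2 hu0
    have hu1' : v.valuation K u ≤ 1 := by
      rw [map_inv₀] at c1
      exact (one_le_inv₀ (zero_lt_iff.2 hv0)).1 c1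
    have n2 : v.valuation K (2 : K) ≤ 1 := by
      have h7 : v.valuation K (algebraMap (𝓞 K) K 2) ≤ 1 := v.valuation_le_one 2
      rwa [map_ofNat] at h7
    have n3 : v.valuation K (2 : K) = 1 := le_antisymm n2 m3
    have k0 : v.valuation K (u - 1) = 1 := by
      refine le_antisymm ?_ ?_
      · refine ((v.valuation K).map_sub _ _).trans (max_le hu1' ?_)
        rw [map_one]
      · have e1 : u⁻¹ - 1 = -(u - 1) / u := by
          field_simp
          ring
        rw [e1, map_div₀, Valuation.map_neg] at c2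
        have e2 : v.valuation K u ≤ v.valuation K (u - 1) := by
          rwa [one_le_div₀ (zero_lt_iff.2 hv0)] at c2
        by_contra hlt
        rw [not_le] at hlt
        have e3 : v.valuation K u < 1 := e2.trans_lt hlt
        have e4 : v.valuation K (u - 1) = 1 := by
          rw [Valuation.map_sub_swap]
          exact (v.valuation K).map_one_sub_of_lt e3
        rw [e4] at hlt
        exact lt_irrefl _ hlt
    have k1 : v.valuation K (u + 1) = 1 := by
      refine le_antisymm ?_ ?_
      · refine ((v.valuation K).map_add _ _).trans (max_le hu1' ?_)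
        rw [map_one]
      · have e1 : u⁻¹ + 1 = (u + 1) / u := by
          field_simp
          ring
        rw [e1, map_div₀] at c3
        have e2 : v.valuation K u ≤ v.valuation K (u + 1) := by
          rwa [one_le_div₀ (zero_lt_iff.2 hv0)] at c3
        by_contra hlt
        rw [not_le] at hlt
        have e3 : v.valuation K u < 1 := e2.trans_lt hlt
        have e4 : v.valuation K (u + 1) = 1 := by
          rw [add_comm]
          exact (v.valuation K).map_one_add_of_lt e3
        rw [e4] at hlt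
        exact lt_irrefl _ hlt
    apply hv
    have k : ∀ i, v.valuation K (P i) = 1 := by
      intro i
      fin_cases i
      · exact k0
      · show v.valuation K (-(u + 1)) = 1
        rw [Valuation.map_neg]
        exact k1
      · exact n3
    intro i j
    rw [k i, k j]
  set W := wt (fun v : HeightOneSpectrum (𝓞 K) => Near u⁻¹ v) with hW
  set D := Real.log |(discr K : ℝ)| with hD
  set H := logHeight₁ u⁻¹ with hH
  set n : ℝ := (finrank ℚ K : ℝ) with hn
  by_cases hε1 : 1 ≤ ε
  · have e1 : (1 - ε) * H ≤ 0 := mul_nonpos_of_nonpos_of_nonneg (by linarith) hh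
    have e2 : 0 ≤ n * (|C| + C1 + C2) := by positivity
    linarith
  · push Not at hε1
    have hCa : n * C ≤ n * |C| := mul_le_mul_of_nonneg_left (le_abs_self C) hd.le
    have hNE := wt_nonneg (NE3 P)
    have f1 : (1 - ε) * H ≤ (1 - ε) * (n * C1) + (1 - ε) * logHeight P := by
      rw [← mul_add]
      exact mul_le_mul_of_nonneg_left h3 (by linarith)
    have f2 : (1 - ε) * (n * C1) ≤ n * C1 := by
      have : 0 ≤ n * C1 := by positivity
      nlinarith
    have f3 : (1 - ε) * logHeight P ≤ (1 - ε) * ((1 + ε) * (wt (NE3 P) + D) + n * |C|) :=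
      mul_le_mul_of_nonneg_left (by linarith) (by linarith)
    have f4 : (1 - ε) * ((1 + ε) * (wt (NE3 P) + D) + n * |C|) ≤ wt (NE3 P) + D + n * |C| := by
      have g5 : 0 ≤ wt (NE3 P) + D := by linarith
      have g6 : 0 ≤ n * |C| := by positivity
      nlinarith [mul_nonneg (sq_nonneg ε) g5, mul_nonneg hε.le g6]
    have f5 : n * (|C| + C1 + C2) = n * |C| + n * C1 + n * C2 := by ring
    rw [f5]
    linarith

/-- finite sets of points -/
theorem line_of_abc (lineu : S_LINEU) {E : Type} [Field E] [NumberField E] {R : ℕ → Prop}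
    (h : ABCD E R) : LineU E R := by
  intro A S hS ε hε
  exact lineu E R (near_of_abc h) A S hS ε hε

end Pool.Agent.H432.AU
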