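import Mathlib
import Pool.Agent.H432.AU.Stm

set_option autoImplicit false

namespace Pool.Agent.H432.AU

open NumberField Module

namespace PDISCU

open Polynomial

/-- an integral primitive element -/
theorem exists_int_prim (L E : Type) [Field L] [NumberField L] [Field E] [NumberField E]
    [Algebra L E] : ∃ θ : 𝓞 E, IntermediateField.adjoin L {(θ : E)} = ⊤ := by
  obtain ⟨α, hα⟩ := Field.exists_primitive_element L E
  have halg : IsAlgebraic ℤ α := by
    have : IsAlgebraic ℚ α := Algebra.IsAlgebraic.isAlgebraic α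
    exact (IsFractionRing.isAlgebraic_iff ℤ ℚ E).2 this
  obtain ⟨y, hy0, hy⟩ := halg.exists_integral_multiple
  refine ⟨⟨y • α, hy⟩, ?_⟩
  rw [eq_top_iff, ← hα, IntermediateField.adjoin_le_iff, Set.singleton_subset_iff]
  have h1 : (y • α : E) ∈ IntermediateField.adjoin L {(y • α : E)} :=
    IntermediateField.mem_adjoin_simple_self L _
  have h2 : α = ((y : L)⁻¹) • (y • α) := by
    rw [← Int.cast_smul_eq_zsmul L y α, smul_smul, inv_mul_cancel₀ (Int.cast_ne_zero.2 hy0),
      one_smul]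
  have h3 := IntermediateField.smul_mem _ h1 (x := (y : L)⁻¹)
  rw [← h2] at h3
  exact h3

/-- the bound for the discriminant -/
theorem bound (E K₀ K : Type) [Field E] [NumberField E] [Field K₀] [NumberField K₀] [Field K]
    [NumberField K] [Algebra K₀ K] [Algebra E K] (θ : 𝓞 E)
    (hK : Algebra.adjoin K₀ {algebraMap E K (θ : E)} = ⊤) :
    Real.log |(discr K : ℝ)| / finrank ℚ K ≤ Real.log |(discr K₀ : ℝ)| / finrank ℚ K₀ +
      Real.log |((Algebra.norm ℤ (aeval θ (derivative (minpoly ℤ θ)) : 𝓞 E) : ℤ) : ℝ)| /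
        finrank ℚ E := by
  set D : 𝓞 E := aeval θ (derivative (minpoly ℤ θ)) with hD
  have hD0 : D ≠ 0 := by
    have hint : IsIntegral ℤ (θ : E) := θ.2
    have h1 : aeval (θ : E) (derivative (minpoly ℚ (θ : E))) ≠ 0 :=
      (Algebra.IsSeparable.isSeparable ℚ (θ : E)).aeval_derivative_ne_zero (minpoly.aeval _ _)
    have h2 : minpoly ℚ (θ : E) = (minpoly ℤ (θ : E)).map (algebraMap ℤ ℚ) :=
      minpoly.isIntegrallyClosed_eq_field_fractions' ℚ hint
    have h3 : minpoly ℤ (θ : E) = minpoly ℤ θ :=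
      minpoly.algebraMap_eq (FaithfulSMul.algebraMap_injective (𝓞 E) E) θ
    rw [h2, h3, derivative_map, aeval_map_algebraMap] at h1
    intro h0
    apply h1
    have h4 : aeval (θ : E) (derivative (minpoly ℤ θ)) = algebraMap (𝓞 E) E D := by
      rw [hD]
      exact aeval_algebraMap_apply E θ _
    rw [h4, h0, map_zero]
  set x : 𝓞 K := algebraMap (𝓞 E) (𝓞 K) θ with hx
  have hxK : algebraMap (𝓞 K) K x = algebraMap E K (θ : E) := by
    rw [hx, ← IsScalarTower.algebraMap_apply (𝓞 E) (𝓞 K) K,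
      IsScalarTower.algebraMap_apply (𝓞 E) E K]
  have hmem : aeval x (derivative (minpoly (𝓞 K₀) x)) ∈ differentIdeal (𝓞 K₀) (𝓞 K) := by
    apply aeval_derivative_mem_differentIdeal (𝓞 K₀) K₀ K x
    rw [hxK]; exact hK
  have hxint : IsIntegral (𝓞 K₀) x := Algebra.IsIntegral.isIntegral x
  have hdvd : minpoly (𝓞 K₀) x ∣ (minpoly ℤ θ).map (algebraMap ℤ (𝓞 K₀)) := by
    apply minpoly.isIntegrallyClosed_dvd hxint
    rw [aeval_map_algebraMap, hx, aeval_algebraMap_apply, minpoly.aeval, map_zero]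
  obtain ⟨h, hh⟩ := hdvd
  have hDx : algebraMap (𝓞 E) (𝓞 K) D ∈ differentIdeal (𝓞 K₀) (𝓞 K) := by
    have e1 : algebraMap (𝓞 E) (𝓞 K) D =
        aeval x (derivative ((minpoly ℤ θ).map (algebraMap ℤ (𝓞 K₀)))) := by
      rw [derivative_map, aeval_map_algebraMap, hx, aeval_algebraMap_apply]
    rw [e1, hh, derivative_mul, map_add, map_mul, map_mul, minpoly.aeval, zero_mul, add_zero]
    exact Ideal.mul_mem_right _ _ hmem
  have hle : Ideal.span {algebraMap (𝓞 E) (𝓞 K) D} ≤ differentIdeal (𝓞 K₀) (𝓞 K) := by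
    rw [Ideal.span_singleton_le_iff_mem]; exact hDx
  have hN := Ideal.absNorm_dvd_absNorm_of_le hle
  rw [Ideal.absNorm_span_singleton] at hN
  have hnorm : (Algebra.norm ℤ (algebraMap (𝓞 E) (𝓞 K) D)) =
      (Algebra.norm ℤ D) ^ finrank E K := by
    have h1 : ((Algebra.norm ℤ (algebraMap (𝓞 E) (𝓞 K) D) : ℤ) : ℚ) =
        ((Algebra.norm ℤ D : ℤ) : ℚ) ^ finrank E K := by
      rw [Algebra.coe_norm_int, Algebra.coe_norm_int]
      have h2 : ((algebraMap (𝓞 E) (𝓞 K) D : 𝓞 K) : K) = algebraMap E K (D : E) := by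
        show algebraMap (𝓞 K) K (algebraMap (𝓞 E) (𝓞 K) D) = algebraMap E K (algebraMap (𝓞 E) E D)
        rw [← IsScalarTower.algebraMap_apply (𝓞 E) (𝓞 K) K,
          IsScalarTower.algebraMap_apply (𝓞 E) E K]
      rw [h2, ← Algebra.norm_norm (R := ℚ) (S := E) (A := K), Algebra.norm_algebraMap, map_pow]
    exact_mod_cast h1
  have hND0 : Algebra.norm ℤ D ≠ 0 := by
    rw [Algebra.norm_ne_zero_iff]; exact hD0
  have hdisc := natAbs_discr_eq_absNorm_differentIdeal_mul_natAbs_discr_pow K₀ (𝓞 K₀) K (𝓞 K)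
  have hdK : discr K ≠ 0 := discr_ne_zero K
  have hdK₀ : discr K₀ ≠ 0 := discr_ne_zero K₀
  have hpos : 0 < Ideal.absNorm (differentIdeal (𝓞 K₀) (𝓞 K)) := by
    rcases Nat.eq_zero_or_pos (Ideal.absNorm (differentIdeal (𝓞 K₀) (𝓞 K))) with h0 | h0
    · rw [h0, zero_mul] at hdisc
      exact absurd (Int.natAbs_eq_zero.1 hdisc) hdK
    · exact h0
  have hNle : Ideal.absNorm (differentIdeal (𝓞 K₀) (𝓞 K)) ≤
      (Algebra.norm ℤ D).natAbs ^ finrank E K := by
    rw [hnorm, Int.natAbs_pow] at hN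
    exact Nat.le_of_dvd (pow_pos (Int.natAbs_pos.2 hND0) _) hN
  have hlogN : Real.log (Ideal.absNorm (differentIdeal (𝓞 K₀) (𝓞 K)) : ℝ) ≤
      finrank E K * Real.log |((Algebra.norm ℤ D : ℤ) : ℝ)| := by
    rw [← Real.log_pow]
    apply Real.log_le_log (by exact_mod_cast hpos)
    have : ((Algebra.norm ℤ D).natAbs : ℝ) = |((Algebra.norm ℤ D : ℤ) : ℝ)| := by
      rw [Nat.cast_natAbs, Int.cast_abs]
    rw [← this]
    exact_mod_cast hNle
  have hlogd : Real.log |(discr K : ℝ)| =
      Real.log (Ideal.absNorm (differentIdeal (𝓞 K₀) (𝓞 K)) : ℝ) +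
        finrank K₀ K * Real.log |(discr K₀ : ℝ)| := by
    have h1 : |(discr K : ℝ)| = (Ideal.absNorm (differentIdeal (𝓞 K₀) (𝓞 K)) : ℝ) *
        |(discr K₀ : ℝ)| ^ finrank K₀ K := by
      have h2 : ((discr K).natAbs : ℝ) = |(discr K : ℝ)| := by
        rw [Nat.cast_natAbs, Int.cast_abs]
      have h3 : ((discr K₀).natAbs : ℝ) = |(discr K₀ : ℝ)| := by
        rw [Nat.cast_natAbs, Int.cast_abs]
      rw [← h2, ← h3, hdisc]
      push_cast
      rfl
    rw [h1, Real.log_mul, Real.log_pow]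
    · exact_mod_cast hpos.ne'
    · apply pow_ne_zero
      rw [abs_ne_zero]
      exact_mod_cast hdK₀
  have hf1 : finrank ℚ K₀ * finrank K₀ K = finrank ℚ K := finrank_mul_finrank ℚ K₀ K
  have hf2 : finrank ℚ E * finrank E K = finrank ℚ K := finrank_mul_finrank ℚ E K
  have p0 : (0 : ℝ) < finrank ℚ K₀ := by exact_mod_cast finrank_pos
  have p1 : (0 : ℝ) < finrank ℚ E := by exact_mod_cast finrank_pos
  have p2 : (0 : ℝ) < finrank ℚ K := by exact_mod_cast finrank_pos
  have e1 : ((finrank ℚ K₀ : ℝ)) * finrank K₀ K = finrank ℚ K := by exact_mod_cast hf1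
  have e2 : ((finrank ℚ E : ℝ)) * finrank E K = finrank ℚ K := by exact_mod_cast hf2
  rw [div_le_iff₀ p2, hlogd, add_mul]
  have e3 : Real.log |(discr K₀ : ℝ)| / finrank ℚ K₀ * finrank ℚ K =
      finrank K₀ K * Real.log |(discr K₀ : ℝ)| := by
    rw [← e1]; field_simp
  have e4 : Real.log |((Algebra.norm ℤ D : ℤ) : ℝ)| / finrank ℚ E * finrank ℚ K =
      finrank E K * Real.log |((Algebra.norm ℤ D : ℤ) : ℝ)| := by
    rw [← e2]; field_simp
  rw [e3, e4]
  linarith


/-- the image of `E` in the composite -/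
theorem mem_comp (L E K₀ : Type) [Field L] [NumberField L] [Field E] [NumberField E]
    [Algebra L E] [Field K₀] [NumberField K₀] [Algebra L K₀] (θ : 𝓞 E)
    (hθ : IntermediateField.adjoin L {(θ : E)} = ⊤) (σ : E →ₐ[L] AlgebraicClosure K₀) (e : E) :
    σ e ∈ IntermediateField.adjoin K₀ {σ (θ : E)} := by
  let N : IntermediateField L E :=
    ((IntermediateField.adjoin K₀ {σ (θ : E)}).restrictScalars L).comap σ
  have h1 : IntermediateField.adjoin L {(θ : E)} ≤ N := by
    rw [IntermediateField.adjoin_le_iff, Set.singleton_subset_iff]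
    show σ (θ : E) ∈ IntermediateField.adjoin K₀ {σ (θ : E)}
    exact IntermediateField.mem_adjoin_simple_self K₀ _
  have h2 : e ∈ N := h1 (by rw [hθ]; trivial)
  exact h2

end PDISCU

theorem discu : S_DISCU := by
  intro L E _ _ _ _ _
  obtain ⟨θ, hθ⟩ := PDISCU.exists_int_prim L E
  refine ⟨abs (Real.log (abs ((Algebra.norm ℤ (Polynomial.aeval θ (Polynomial.derivative
    (minpoly ℤ θ)) : 𝓞 E) : ℤ) : ℝ))) / finrank ℚ E, by positivity, ?_⟩
  intro K₀ _ _ _
  haveI : Algebra.IsAlgebraic L E := Algebra.IsAlgebraic.tower_top (K := ℚ) L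
  let σ : E →ₐ[L] AlgebraicClosure K₀ := IsAlgClosed.lift
  have hint : IsIntegral K₀ (σ (θ : E)) := by
    have h1 : IsIntegral L (θ : E) := Algebra.IsIntegral.isIntegral _
    have h2 : IsIntegral L (σ (θ : E)) := h1.map σ
    exact h2.tower_top
  let K := IntermediateField.adjoin K₀ {σ (θ : E)}
  haveI : FiniteDimensional K₀ K := IntermediateField.adjoin.finiteDimensional hint
  haveI : FiniteDimensional ℚ K := FiniteDimensional.trans ℚ K₀ K
  haveI : NumberField K := { to_charZero := inferInstance, to_finiteDimensional := inferInstance }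
  let j : E →+* K := σ.toRingHom.codRestrict K.toSubring (fun e => PDISCU.mem_comp L E K₀ θ hθ σ e)
  letI : Algebra E K := j.toAlgebra
  have hj : ∀ e : E, ((algebraMap E K e : K) : AlgebraicClosure K₀) = σ e := fun e => rfl
  haveI : IsScalarTower L K₀ K := inferInstance
  haveI : IsScalarTower L E K := by
    apply IsScalarTower.of_algebraMap_eq
    intro l
    apply Subtype.ext
    rw [hj, σ.commutes]
    rfl
  refine ⟨K, inferInstance, inferInstance, inferInstance, inferInstance, inferInstance,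
    inferInstance, inferInstance, ?_, ?_⟩
  · have h1 : finrank K₀ K = (minpoly K₀ (σ (θ : E))).natDegree :=
      IntermediateField.adjoin.finrank hint
    have h2 : (minpoly L (θ : E)).natDegree = finrank L E :=
      (Field.primitive_element_iff_minpoly_natDegree_eq L (θ : E)).1 hθ
    rw [h1, ← h2]
    have h3 : minpoly K₀ (σ (θ : E)) ∣ (minpoly L (θ : E)).map (algebraMap L K₀) := by
      apply minpoly.dvd
      rw [Polynomial.aeval_map_algebraMap, Polynomial.aeval_algHom_apply, minpoly.aeval, map_zero]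
    have h4 : (minpoly L (θ : E)).Monic := minpoly.monic (Algebra.IsIntegral.isIntegral _)
    calc (minpoly K₀ (σ (θ : E))).natDegree ≤ ((minpoly L (θ : E)).map
          (algebraMap L K₀)).natDegree :=
          Polynomial.natDegree_le_of_dvd h3 (h4.map _).ne_zero
      _ = (minpoly L (θ : E)).natDegree := h4.natDegree_map _
  · have hK : Algebra.adjoin K₀ {algebraMap E K (θ : E)} = ⊤ := by
      have h1 := (IntermediateField.adjoin.powerBasis hint).adjoin_gen_eq_top
      rw [IntermediateField.adjoin.powerBasis_gen] at h1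
      exact h1
    refine (PDISCU.bound E K₀ K θ hK).trans ?_
    gcongr
    exact le_abs_self _

end Pool.Agent.H432.AU
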