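import Mathlib
import Pool.Agent.H432.AU.Stm

/-!
Task FINU of project AU (helper627): bounded heights of the common zeros of two coprime polynomials
in all extensions.
-/

set_option autoImplicit false

namespace Pool.Agent.H432.AU.PFINU

open MvPolynomial

/-! ### elimination -/

theorem elim {R : Type*} [CommRing R] [IsDomain R] [UniqueFactorizationMonoid R]
    {p q : Polynomial R} (hp : Irreducible p) (hd : p.natDegree ≠ 0) (hpq : ¬ p ∣ q) :
    ∃ (a b : Polynomial R) (r : R), r ≠ 0 ∧ p * a + q * b = Polynomial.C r := by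
  obtain ⟨a, b, -, -, h⟩ := Polynomial.exists_mul_add_mul_eq_C_resultant p q le_rfl le_rfl (Or.inl hd)
  refine ⟨a, b, _, ?_, h⟩
  intro h0
  have hprim := hp.isPrimitive hd
  have hinj : Function.Injective (algebraMap R (FractionRing R)) := IsFractionRing.injective _ _
  have hirr : Irreducible (p.map (algebraMap R (FractionRing R))) :=
    hprim.irreducible_iff_irreducible_map_fraction_map.1 hp
  have hnd : ¬ p.map (algebraMap R (FractionRing R)) ∣ q.map (algebraMap R (FractionRing R)) :=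
    fun h => hpq (hprim.dvd_of_fraction_map_dvd_fraction_map h)
  have hcop : IsCoprime (p.map (algebraMap R (FractionRing R))) (q.map (algebraMap R (FractionRing R))) :=
    (hirr.isCoprime_or_dvd _).resolve_right hnd
  have h1 := Polynomial.resultant_ne_zero _ _ hcop
  apply h1
  rw [Polynomial.natDegree_map_eq_of_injective hinj, Polynomial.natDegree_map_eq_of_injective hinj,
    Polynomial.resultant_map_map, h0, map_zero]

theorem ev_C {E K : Type} [Field E] [Field K] [Algebra E K] (z : Fin 2 → K)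
    (r : MvPolynomial (Fin 1) E) :
    aeval z ((finSuccEquiv E 1).symm (Polynomial.C r)) =
      Polynomial.aeval (z 1) (uniqueAlgEquiv E (Fin 1) r) := by
  have h : ((aeval z : MvPolynomial (Fin 2) E →ₐ[E] K).comp
      (((finSuccEquiv E 1).symm : _ ≃ₐ[E] _).toAlgHom.comp Polynomial.CAlgHom)) =
      (Polynomial.aeval (z 1) : Polynomial E →ₐ[E] K).comp
        ((uniqueAlgEquiv E (Fin 1) : _ ≃ₐ[E] _).toAlgHom) := by
    refine MvPolynomial.algHom_ext fun i => ?_
    have e1 : (finSuccEquiv E 1).symm (Polynomial.C (X i)) = X i.succ := by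
      rw [AlgEquiv.symm_apply_eq, finSuccEquiv_X_succ]
    have e2 : uniqueAlgEquiv E (Fin 1) (X i) = Polynomial.X := by
      simp [uniqueAlgEquiv]
    have e3 : i.succ = (1 : Fin 2) := by
      rw [Fin.fin_one_eq_zero i]
      rfl
    show aeval z ((finSuccEquiv E 1).symm (Polynomial.C (X i))) =
      Polynomial.aeval (z 1) (uniqueAlgEquiv E (Fin 1) (X i))
    rw [e1, e2, e3, aeval_X, Polynomial.aeval_X]
  exact DFunLike.congr_fun h r

theorem elim_one {E : Type} [Field E] {P Q : MvPolynomial (Fin 2) E} (hP : Irreducible P)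
    (hPQ : ¬ P ∣ Q) : ∃ ρ : Polynomial E, ρ ≠ 0 ∧ ∀ (K : Type) [Field K] [Algebra E K]
      (z : Fin 2 → K), aeval z P = 0 → aeval z Q = 0 → Polynomial.aeval (z 1) ρ = 0 := by
  have hp : Irreducible (finSuccEquiv E 1 P) :=
    (MulEquiv.irreducible_iff (finSuccEquiv E 1)).2 hP
  have hpq : ¬ finSuccEquiv E 1 P ∣ finSuccEquiv E 1 Q := by
    rwa [map_dvd_iff]
  obtain ⟨a, b, r, hr, h⟩ : ∃ (a b : Polynomial (MvPolynomial (Fin 1) E)) (r : MvPolynomial (Fin 1) E),
      r ≠ 0 ∧ finSuccEquiv E 1 P * a + finSuccEquiv E 1 Q * b = Polynomial.C r := by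
    by_cases hd : (finSuccEquiv E 1 P).natDegree = 0
    · have hC := Polynomial.eq_C_of_natDegree_eq_zero hd
      refine ⟨1, 0, (finSuccEquiv E 1 P).coeff 0, ?_, ?_⟩
      · intro h0
        rw [h0, Polynomial.C_0] at hC
        exact hp.ne_zero hC
      · rw [mul_one, mul_zero, add_zero]
        exact hC
    · exact elim hp hd hpq
  refine ⟨uniqueAlgEquiv E (Fin 1) r, ?_, ?_⟩
  · intro h0
    apply hr
    exact (uniqueAlgEquiv E (Fin 1)).injective (by rw [h0, map_zero])
  · intro K _ _ z h1 h2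
    rw [← ev_C, ← h, map_add, map_mul, map_mul, AlgEquiv.symm_apply_apply,
      AlgEquiv.symm_apply_apply, map_add, map_mul, map_mul, h1, h2, zero_mul, zero_mul, add_zero]

theorem elim_two {E : Type} [Field E] {P Q : MvPolynomial (Fin 2) E} (hP : Irreducible P)
    (hPQ : ¬ P ∣ Q) (c : Fin 2) : ∃ ρ : Polynomial E, ρ ≠ 0 ∧ ∀ (K : Type) [Field K] [Algebra E K]
      (z : Fin 2 → K), aeval z P = 0 → aeval z Q = 0 → Polynomial.aeval (z c) ρ = 0 := by
  obtain rfl | rfl : c = 1 ∨ c = 0 := by omega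
  · exact elim_one hP hPQ
  · let e := renameEquiv E (Equiv.swap (0 : Fin 2) 1)
    have hP' : Irreducible (e P) := (MulEquiv.irreducible_iff e).2 hP
    have hPQ' : ¬ e P ∣ e Q := by rwa [map_dvd_iff]
    obtain ⟨ρ, hρ, h⟩ := elim_one hP' hPQ'
    refine ⟨ρ, hρ, fun K _ _ z h1 h2 => ?_⟩
    have h3 : (z ∘ Equiv.swap (0 : Fin 2) 1) ∘ Equiv.swap (0 : Fin 2) 1 = z := by
      funext i; simp
    have h4 := h K (z ∘ Equiv.swap (0 : Fin 2) 1) (by
      show aeval _ (rename _ P) = 0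
      rw [aeval_rename, h3]
      exact h1) (by
      show aeval _ (rename _ Q) = 0
      rw [aeval_rename, h3]
      exact h2)
    simpa using h4

/-- the monic relation -/
theorem monic_rel {E : Type} [Field E] {ρ : Polynomial E} (hρ : ρ ≠ 0) :
    ∃ (m : ℕ) (a : Fin m → MvPolynomial Unit E), (∀ i, (a i).IsHomogeneous (m - i)) ∧
      ∀ (K : Type) [Field K] [Algebra E K] (f : K), Polynomial.aeval f ρ = 0 →
        f ^ m + ∑ i : Fin m, aeval (fun _ : Unit => (1 : K)) (a i) * f ^ (i : ℕ) = 0 := by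
  refine ⟨ρ.natDegree, fun i => C (ρ.coeff i / ρ.leadingCoeff) * X () ^ (ρ.natDegree - i), ?_, ?_⟩
  · intro i
    have h1 := (isHomogeneous_C Unit (ρ.coeff i / ρ.leadingCoeff)).mul
      ((isHomogeneous_X E ()).pow (ρ.natDegree - i))
    rwa [zero_add, one_mul] at h1
  · intro K _ _ f hf
    have hl : ρ.leadingCoeff ≠ 0 := Polynomial.leadingCoeff_ne_zero.2 hρ
    have hl' : algebraMap E K ρ.leadingCoeff ≠ 0 := (map_ne_zero _).2 hl
    rw [Polynomial.aeval_eq_sum_range, Finset.sum_range_succ] at hf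
    have h1 : ∀ i : Fin ρ.natDegree, aeval (fun _ : Unit => (1 : K))
        (C (ρ.coeff i / ρ.leadingCoeff) * X () ^ (ρ.natDegree - i)) * f ^ (i : ℕ) =
        (algebraMap E K ρ.leadingCoeff)⁻¹ * (ρ.coeff i • f ^ (i : ℕ)) := by
      intro i
      rw [map_mul, map_pow, aeval_X, one_pow, mul_one, aeval_C, map_div₀, Algebra.smul_def]
      field_simp
    rw [Finset.sum_congr rfl fun i _ => h1 i, ← Finset.mul_sum,
      Fin.sum_univ_eq_sum_range (fun i => ρ.coeff i • f ^ i)]
    have h2 : ρ.coeff ρ.natDegree • f ^ ρ.natDegree = algebraMap E K ρ.leadingCoeff * f ^ ρ.natDegree := by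
      rw [Algebra.smul_def]
      rfl
    rw [h2] at hf
    field_simp
    linear_combination hf

end Pool.Agent.H432.AU.PFINU

namespace Pool.Agent.H432.AU.PFINU

open MvPolynomial NumberField IsDedekindDomain Module Height Pool.Agent.N750 Pool.Agent.H432.RC
open Pool.Agent.W180.OP (Pl av nrm le_nrm nrm_pos nrm_nonneg)
open Pool.Agent.H432.TC

/-! ### constants of bounds -/

section bounds

variable {K : Type} [Field K] [NumberField K]

/-- a bound with constant at most `[K : ℚ] C` -/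
def BB (C : ℝ) (g : Pl K → ℝ) : Prop := Bd g ∧ bdc g ≤ finrank ℚ K * C

theorem fin_supp {g : Pl K → ℝ} (hg : Bd g) :
    (Function.support fun v : HeightOneSpectrum (𝓞 K) => Real.log (g (Sum.inr v))).Finite := by
  refine (hg.2.preimage Sum.inr_injective.injOn).subset ?_
  intro v hv
  show g (Sum.inr v) ≠ 1
  intro h0
  apply hv
  show Real.log (g (Sum.inr v)) = 0
  rw [h0, Real.log_one]

theorem bdc_mul {g h : Pl K → ℝ} (hg : Bd g) (hh : Bd h) :
    bdc (fun p => g p * h p) = bdc g + bdc h := by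
  have e : ∀ p, Real.log (g p * h p) = Real.log (g p) + Real.log (h p) := fun p =>
    Real.log_mul (zero_lt_one.trans_le (hg.1 p)).ne' (zero_lt_one.trans_le (hh.1 p)).ne'
  unfold bdc
  simp_rw [e, mul_add]
  rw [finsum_add_distrib (fin_supp hg) (fin_supp hh), Finset.sum_add_distrib]
  ring

theorem bdc_one : bdc (fun _ : Pl K => (1 : ℝ)) = 0 := by
  unfold bdc
  simp

theorem bdc_cst {B : ℝ} : bdc (cst B : Pl K → ℝ) = finrank ℚ K * Real.log B := by
  unfold bdc
  have h1 : ∀ v : HeightOneSpectrum (𝓞 K), Real.log ((cst B : Pl K → ℝ) (Sum.inr v)) = 0 := by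
    intro v
    show Real.log 1 = 0
    exact Real.log_one
  have h2 : ∀ w : InfinitePlace K, (w.mult : ℝ) * Real.log ((cst B : Pl K → ℝ) (Sum.inl w)) =
      (w.mult : ℝ) * Real.log B := fun w => rfl
  rw [finsum_congr h1, finsum_zero, add_zero, Finset.sum_congr rfl fun w _ => h2 w,
    ← Finset.sum_mul]
  congr 1
  have h3 := InfinitePlace.sum_mult_eq (K := K)
  exact_mod_cast h3

theorem BB.mul {C C' : ℝ} {g h : Pl K → ℝ} (hg : BB C g) (hh : BB C' h) :
    BB (C + C') (fun p => g p * h p) := by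
  refine ⟨hg.1.mul hh.1, ?_⟩
  rw [bdc_mul hg.1 hh.1, mul_add]
  exact add_le_add hg.2 hh.2

theorem BB_cst {B : ℝ} (hB : 1 ≤ B) : BB (Real.log B) (cst B : Pl K → ℝ) :=
  ⟨Bd_cst hB, bdc_cst.le⟩

theorem BB.pow {C : ℝ} {g : Pl K → ℝ} (hg : BB C g) (D : ℕ) : BB (D * C) (fun p => g p ^ D) := by
  induction D with
  | zero =>
    have h1 : (fun p : Pl K => g p ^ 0) = fun _ => 1 := funext fun p => pow_zero _
    rw [h1]
    refine ⟨Bd_one, ?_⟩
    rw [bdc_one]
    simp
  | succ D ih =>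
    have h1 : (fun p : Pl K => g p ^ (D + 1)) = fun p => g p ^ D * g p :=
      funext fun p => pow_succ _ _
    rw [h1]
    have h2 : (((D + 1 : ℕ) : ℝ)) * C = (D : ℝ) * C + C := by
      push_cast
      ring
    rw [h2]
    exact ih.mul hg

theorem BB.prod {ι : Type} (s : Finset ι) (C : ι → ℝ) (g : ι → Pl K → ℝ)
    (h : ∀ i, BB (C i) (g i)) : BB (∑ i ∈ s, C i) (fun p => ∏ i ∈ s, g i p) := by
  classical
  induction s using Finset.induction_on with
  | empty =>
    simp only [Finset.prod_empty, Finset.sum_empty]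
    refine ⟨Bd_one, ?_⟩
    rw [bdc_one]
    simp
  | insert i s hi ih =>
    simp only [Finset.prod_insert hi, Finset.sum_insert hi]
    exact (h i).mul ih

end bounds

/-- the size of the values of a polynomial over `E` -/
theorem val_bd (hnrm : S_NRM) {E : Type} [Field E] [NumberField E] (F : MvPolynomial (Fin 2) E) :
    ∃ C : ℝ, ∀ (K : Type) [Field K] [NumberField K] [Algebra E K], ∃ g : Pl K → ℝ, BB C g ∧
      ∀ (z : Fin 2 → K) (p : Pl K) (R : ℝ), 1 ≤ R → (∀ c, av p (z c) ≤ R) →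
        av p (aeval z F) ≤ g p * R ^ F.totalDegree := by
  classical
  let e := F.support.equivFin
  obtain ⟨c, hc⟩ : ∃ c : Fin (F.support.card + 1) → E,
      c = Fin.cons 1 (fun i => F.coeff (e.symm i).1) := ⟨_, rfl⟩
  have hc0 : c 0 = 1 := by rw [hc, Fin.cons_zero]
  obtain ⟨S, C, -, -, hC⟩ := hnrm E _ c 0 hc0
  refine ⟨Real.log (max 1 (F.support.card : ℝ)) + C, fun K _ _ _ => ?_⟩
  obtain ⟨u1, u2, -⟩ := hC K
  refine ⟨fun p => cst (max 1 (F.support.card : ℝ)) p * nrm (av p) fun i => algebraMap E K (c i),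
    (BB_cst (le_max_left _ _)).mul ⟨u1, u2⟩, fun z p R hR hz => ?_⟩
  have hcoef : ∀ m ∈ F.support, av p (algebraMap E K (F.coeff m)) ≤
      nrm (av p) fun i => algebraMap E K (c i) := by
    intro m hm
    have h1 := le_nrm (av p) (fun i => algebraMap E K (c i)) (e ⟨m, hm⟩).succ
    rw [hc] at h1 ⊢
    simp only [Fin.cons_succ, Equiv.symm_apply_apply] at h1
    exact h1
  rw [MvPolynomial.aeval_def, MvPolynomial.eval₂_eq, mul_assoc]
  refine av_sum p F.support _ ((nrm (av p) fun i => algebraMap E K (c i)) * R ^ F.totalDegree)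
    (mul_nonneg (nrm_nonneg _ _) (pow_nonneg (by linarith) _)) (fun m hm => ?_)
    (max 1 (F.support.card : ℝ)) (le_max_right _ _)
  rw [map_mul, map_prod]
  refine mul_le_mul ?_ ?_ (Finset.prod_nonneg fun i _ => (av p).nonneg _) (nrm_nonneg _ _)
  · exact hcoef m hm
  · have hdeg : ∑ i ∈ m.support, m i ≤ F.totalDegree := MvPolynomial.le_totalDegree hm
    calc ∏ i ∈ m.support, av p (z i ^ m i) ≤ ∏ i ∈ m.support, R ^ m i := by
          refine Finset.prod_le_prod (fun i _ => (av p).nonneg _) fun i _ => ?_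
          rw [map_pow]
          exact pow_le_pow_left₀ ((av p).nonneg _) (hz i) _
      _ = R ^ ∑ i ∈ m.support, m i := Finset.prod_pow_eq_pow_sum _ _ _
      _ ≤ R ^ F.totalDegree := pow_le_pow_right₀ hR hdeg

end Pool.Agent.H432.AU.PFINU

namespace Pool.Agent.H432.AU

open MvPolynomial NumberField IsDedekindDomain Module Height Pool.Agent.N750 Pool.Agent.H432.RC
open Pool.Agent.W180.OP (Pl av nrm le_nrm nrm_pos nrm_nonneg)
open Pool.Agent.H432.TC
open Pool.Agent.H432.AU.PFINU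

theorem finu (nrm : S_NRM) (locbu : S_LOCBU) : S_FINU := by
  intro E _ _ M P Q φ hP hPQ
  obtain ⟨ρ0, hρ0, h0⟩ := elim_two hP hPQ 0
  obtain ⟨ρ1, hρ1, h1⟩ := elim_two hP hPQ 1
  obtain ⟨m0, a0, ha0, hr0⟩ := monic_rel hρ0
  obtain ⟨m1, a1, ha1, hr1⟩ := monic_rel hρ1
  obtain ⟨S0, C0, -, hC0, hb0⟩ := locbu E Unit m0 a0 ha0
  obtain ⟨S1, C1, -, hC1, hb1⟩ := locbu E Unit m1 a1 ha1
  choose Cv hCv using fun l => val_bd nrm (φ l)
  obtain ⟨C, hC⟩ : ∃ C : ℝ, C = ∑ l, (Cv l + ((φ l).totalDegree : ℝ) * (C0 + C1)) := ⟨_, rfl⟩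
  refine ⟨max C 0, le_max_right _ _, fun K _ _ _ z hz1 hz2 hz3 => ?_⟩
  obtain ⟨B0, ⟨u0, u0', -⟩, hB0⟩ := hb0 K
  obtain ⟨B1, ⟨u1, u1', -⟩, hB1⟩ := hb1 K
  choose g hg hgb using fun l => hCv l K
  have hR : BB (C0 + C1) (fun p : Pl K => B0 p * B1 p) :=
    BB.mul (⟨u0, u0'⟩ : BB C0 B0) (⟨u1, u1'⟩ : BB C1 B1)
  have hG : BB C (fun p : Pl K => ∏ l, (g l p * (B0 p * B1 p) ^ (φ l).totalDegree)) := by
    rw [hC]
    exact BB.prod Finset.univ _ _ fun l => (hg l).mul (hR.pow _)
  have hz : ∀ (p : Pl K) (c : Fin 2), av p (z c) ≤ B0 p * B1 p := by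
    intro p c
    have g0 := u0.1 p
    have g1 := u1.1 p
    obtain rfl | rfl : c = 1 ∨ c = 0 := by omega
    · obtain ⟨j, hj⟩ := hB1 (fun _ => 1) (z 1) (hr1 K (z 1) (h1 K z hz1 hz2)) p
      rw [map_one, mul_one] at hj
      nlinarith
    · obtain ⟨j, hj⟩ := hB0 (fun _ => 1) (z 0) (hr0 K (z 0) (h0 K z hz1 hz2)) p
      rw [map_one, mul_one] at hj
      nlinarith
  have hval : ∀ (p : Pl K) (l : Fin M), av p (aeval z (φ l)) ≤
      ∏ l, (g l p * (B0 p * B1 p) ^ (φ l).totalDegree) := by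
    intro p l
    refine (hgb l z p (B0 p * B1 p) (hR.1.1 p) (hz p)).trans ?_
    exact le_prod_bd Finset.univ (fun l => g l p * (B0 p * B1 p) ^ (φ l).totalDegree)
      (fun l _ => ((hg l).mul (hR.pow _)).1.1 p) (Finset.mem_univ l)
  have h2 := ht_bd (K := K) (ι := Unit) Finset.univ (fun _ => M)
    (fun _ => fun l => aeval z (φ l)) (fun _ => -1) (fun _ _ => hz3) _ hG.1 (by
      intro p
      rw [Finset.univ_unique, Finset.sum_singleton]
      have e1 := nrm_pos (av p) hz3
      have e2 := nrm_vec_le p (fun l => aeval z (φ l)) (zero_le_one.trans (hG.1.1 p)) (hval p)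
      have e3 := Real.log_le_log e1 e2
      linarith)
  rw [Finset.univ_unique, Finset.sum_singleton] at h2
  have h3 := hG.2
  have h4 : (finrank ℚ K : ℝ) * C ≤ finrank ℚ K * max C 0 :=
    mul_le_mul_of_nonneg_left (le_max_left _ _) (Nat.cast_nonneg _)
  linarith

end Pool.Agent.H432.AU
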