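import Mathlib
import Pool.Agent.H432.AU.Stm
import Pool.Agent.H432.AC.P_HT

set_option autoImplicit false
set_option linter.unusedVariables false

namespace Pool.Agent.H432.AU.PHTU

open MvPolynomial NumberField IsDedekindDomain Module Height Pool.Agent.N750 Pool.Agent.H432.RC
open Pool.Agent.H432.TC Pool.Agent.H432.AC.PHT
open Pool.Agent.W180.OP (Pl av wt nrm le_nrm nrm_pos wt_nonneg exists_nrm nrm_nonneg)

/-- bounds with a constant -/
def VB {K : Type} [Field K] [NumberField K] (C : ℝ) (g : Pl K → ℝ) : Prop :=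
  Bd g ∧ bdc g ≤ finrank ℚ K * C

theorem bdc_mul {K : Type} [Field K] [NumberField K] {g h : Pl K → ℝ} (hg : Bd g) (hh : Bd h) :
    bdc (fun p => g p * h p) = bdc g + bdc h := by
  have hg0 : ∀ p, g p ≠ 0 := fun p => by have := hg.1 p; positivity
  have hh0 : ∀ p, h p ≠ 0 := fun p => by have := hh.1 p; positivity
  have hfin : ∀ f : Pl K → ℝ, Bd f →
      (Function.support fun v : HeightOneSpectrum (𝓞 K) => Real.log (f (Sum.inr v))).Finite := by
    intro f hf
    refine (hf.2.preimage Sum.inr_injective.injOn).subset ?_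
    intro v hv h0
    apply hv
    show Real.log (f (Sum.inr v)) = 0
    rw [h0, Real.log_one]
  unfold bdc
  have h1 : ∑ w : InfinitePlace K, (w.mult : ℝ) * Real.log (g (Sum.inl w) * h (Sum.inl w)) =
      ∑ w : InfinitePlace K, (w.mult : ℝ) * Real.log (g (Sum.inl w)) +
        ∑ w : InfinitePlace K, (w.mult : ℝ) * Real.log (h (Sum.inl w)) := by
    rw [← Finset.sum_add_distrib]
    refine Finset.sum_congr rfl fun w _ => ?_
    rw [Real.log_mul (hg0 _) (hh0 _), mul_add]
  have h2 : ∑ᶠ v : HeightOneSpectrum (𝓞 K), Real.log (g (Sum.inr v) * h (Sum.inr v)) =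
      ∑ᶠ v : HeightOneSpectrum (𝓞 K), Real.log (g (Sum.inr v)) +
        ∑ᶠ v : HeightOneSpectrum (𝓞 K), Real.log (h (Sum.inr v)) := by
    rw [← finsum_add_distrib (hfin g hg) (hfin h hh)]
    refine finsum_congr fun v => ?_
    rw [Real.log_mul (hg0 _) (hh0 _)]
  rw [h1, h2]
  ring

theorem VB.mul {K : Type} [Field K] [NumberField K] {C C' : ℝ} {g h : Pl K → ℝ} (hg : VB C g)
    (hh : VB C' h) : VB (C + C') (fun p => g p * h p) := by
  refine ⟨hg.1.mul hh.1, ?_⟩
  rw [bdc_mul hg.1 hh.1, mul_add]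
  exact add_le_add hg.2 hh.2

theorem VB_one {K : Type} [Field K] [NumberField K] : VB 0 (fun _ : Pl K => (1 : ℝ)) := by
  refine ⟨Bd_one, ?_⟩
  unfold bdc
  simp

theorem VB_cst {K : Type} [Field K] [NumberField K] {B : ℝ} (hB : 1 ≤ B) :
    VB (Real.log B) (cst B : Pl K → ℝ) := by
  refine ⟨Bd_cst hB, ?_⟩
  unfold bdc
  have h1 : ∀ v : HeightOneSpectrum (𝓞 K), Real.log (cst B (Sum.inr v : Pl K)) = 0 := fun v => by
    show Real.log 1 = 0
    exact Real.log_one
  have h2 : ∀ w : InfinitePlace K, Real.log (cst B (Sum.inl w : Pl K)) = Real.log B :=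
    fun w => rfl
  simp_rw [h1, h2]
  rw [finsum_zero, add_zero, ← Finset.sum_mul]
  refine le_of_eq ?_
  congr 1
  have h3 := InfinitePlace.sum_mult_eq (K := K)
  exact_mod_cast h3

theorem VB.prod {K : Type} [Field K] [NumberField K] {ι : Type} (s : Finset ι) (C : ι → ℝ)
    (g : ι → Pl K → ℝ) (h : ∀ i ∈ s, VB (C i) (g i)) :
    VB (∑ i ∈ s, C i) (fun p => ∏ i ∈ s, g i p) := by
  classical
  induction s using Finset.induction_on with
  | empty => simpa using VB_one
  | insert i s hi ih =>
    simp only [Finset.prod_insert hi, Finset.sum_insert hi]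
    exact (h i (Finset.mem_insert_self _ _)).mul
      (ih fun j hj => h j (Finset.mem_insert_of_mem hj))

theorem up1u (nrms : S_NRM) (E : Type) [Field E] [NumberField E] (D : ℕ) (a : Polynomial E) :
    ∃ C : ℝ, 0 ≤ C ∧ ∀ (K : Type) [Field K] [NumberField K] [Algebra E K],
      ∃ g : Pl K → ℝ, VB C g ∧ ∀ (p : Pl K) (f h : K) (R : ℝ), av p f ≤ R → av p h ≤ R →
        av p (hm D a f h) ≤ g p * R ^ D := by
  set z : Fin (D + 2) → E := Fin.cons 1 (fun m : Fin (D + 1) => a.coeff m) with hz
  have hz0 : z 0 = 1 := rfl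
  obtain ⟨S, C, -, hC, hK⟩ := nrms E (D + 2) z 0 hz0
  have hD1 : (1 : ℝ) ≤ (D : ℝ) + 1 := by
    have : (0 : ℝ) ≤ D := Nat.cast_nonneg _
    linarith
  refine ⟨Real.log ((D : ℝ) + 1) + C, add_nonneg (Real.log_nonneg hD1) hC, ?_⟩
  intro K _ _ _
  obtain ⟨h1, h2, -⟩ := hK K
  refine ⟨fun p => cst ((D : ℝ) + 1) p * nrm (av p) (fun i => algebraMap E K (z i)),
    (VB_cst hD1).mul ⟨h1, h2⟩, fun p f h R hf hh => ?_⟩
  have hR : 0 ≤ R := ((av p).nonneg _).trans hf
  have h2 : ∀ m ∈ Finset.range (D + 1), av p (algebraMap E K (a.coeff m) * f ^ m * h ^ (D - m)) ≤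
      nrm (av p) (fun i => algebraMap E K (z i)) * R ^ D := by
    intro m hm
    rw [map_mul, map_mul, map_pow, map_pow]
    have e1 := le_nrm (av p) (fun i => algebraMap E K (z i))
      (Fin.succ ⟨m, Finset.mem_range.1 hm⟩)
    have e1' : av p (algebraMap E K (a.coeff m)) ≤
      nrm (av p) (fun i => algebraMap E K (z i)) := e1
    have e2 : av p f ^ m ≤ R ^ m := pow_le_pow_left₀ ((av p).nonneg _) hf m
    have e3 : av p h ^ (D - m) ≤ R ^ (D - m) := pow_le_pow_left₀ ((av p).nonneg _) hh _
    have e4 : R ^ D = R ^ m * R ^ (D - m) := by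
      rw [← pow_add]
      congr 1
      have := Finset.mem_range.1 hm
      omega
    rw [e4, mul_assoc]
    exact mul_le_mul e1' (mul_le_mul e2 e3 (by positivity) (by positivity)) (by positivity)
      (nrm_nonneg _ _)
  have h3 := av_sum p (Finset.range (D + 1)) _ _
    (mul_nonneg (nrm_nonneg _ _) (by positivity)) h2 ((D : ℝ) + 1) (by
      rw [Finset.card_range]
      push_cast
      exact le_rfl)
  rw [mul_assoc]
  exact h3

theorem upu (nrms : S_NRM) (E : Type) [Field E] [NumberField E] (r D : ℕ)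
    (a : ℕ → Polynomial E) :
    ∃ C : ℝ, 0 ≤ C ∧ ∀ (K : Type) [Field K] [NumberField K] [Algebra E K],
      ∃ g : Pl K → ℝ, VB C g ∧ ∀ (p : Pl K) (f h : K) (R : ℝ), av p f ≤ R → av p h ≤ R →
        ∀ i ∈ Finset.range (r + 1), av p (hm D (a i) f h) ≤ g p * R ^ D := by
  choose C hC hK using fun i => up1u nrms E D (a i)
  refine ⟨∑ i ∈ Finset.range (r + 1), C i, Finset.sum_nonneg fun i _ => hC i, ?_⟩
  intro K _ _ _
  choose g hg h using fun i => hK i K
  refine ⟨fun p => ∏ i ∈ Finset.range (r + 1), g i p, VB.prod _ _ _ fun i _ => hg i,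
    fun p f k R hf hk i hi => ?_⟩
  have hR : 0 ≤ R := ((av p).nonneg _).trans hf
  refine (h i p f k R hf hk).trans (mul_le_mul_of_nonneg_right ?_ (pow_nonneg hR _))
  exact le_prod_bd (Finset.range (r + 1)) (fun i => g i p) (fun i _ => (hg i).1.1 p) hi

end Pool.Agent.H432.AU.PHTU

namespace Pool.Agent.H432.AU

open MvPolynomial NumberField IsDedekindDomain Module Height Pool.Agent.N750 Pool.Agent.H432.RC
open Pool.Agent.H432.TC Pool.Agent.H432.AC.PHT PHTU
open Pool.Agent.W180.OP (Pl av wt nrm le_nrm nrm_pos wt_nonneg exists_nrm nrm_nonneg)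

theorem htu (nrms : S_NRM) (locbu : S_LOCBU) (finu : S_FINU) : S_HTU := by
  intro E Ω _ _ _ _ _ M P φ c l l' hP hl' hfg
  have hPE := irr_of_map (algebraMap E Ω) P hP
  obtain ⟨r, D, a, hr, hrel, hlead⟩ := rel P (φ l) (φ l') c hP hl' hfg
  obtain ⟨C, hC, hCK⟩ := upu nrms E r D a
  obtain ⟨C2, hC2, hfin⟩ := finu E 2 P _ ![1, X c] hPE hlead
  have hr' : (1 : ℝ) ≤ r := by exact_mod_cast hr
  have hlr : 0 ≤ Real.log (r : ℝ) := Real.log_nonneg hr'
  refine ⟨D + (Real.log (r : ℝ) + C) + C2, by positivity, ?_⟩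
  intro K _ _ _ z hz hφ
  have hdK : (0 : ℝ) ≤ finrank ℚ K := Nat.cast_nonneg _
  have h4 := logHeight_nonneg (fun i => aeval z (φ i))
  have h7 : (0 : ℝ) ≤ D := Nat.cast_nonneg _
  by_cases hbr0 : aeval z (hm D (a r) (φ l) (φ l')) = 0
  · -- finitely many points
    have hvec : (fun i => aeval z ((![1, X c] : Fin 2 → MvPolynomial (Fin 2) E) i)) =
        (![1, z c] : Fin 2 → K) := by
      funext i
      match i with
      | 0 => exact map_one _
      | 1 => exact aeval_X _ _
    have h1 := hfin K z hz hbr0 (by rw [hvec]; exact vec2_ne _)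
    rw [hvec] at h1
    have h2 : 0 ≤ (D + (Real.log (r : ℝ) + C) + C2) * logHeight (fun i => aeval z (φ i)) := by
      positivity
    have h3 : (finrank ℚ K : ℝ) * C2 ≤
        (D + (Real.log (r : ℝ) + C) + C2) * (finrank ℚ K : ℝ) := by
      have : 0 ≤ (D + (Real.log (r : ℝ) + C)) * (finrank ℚ K : ℝ) := by positivity
      linarith
    linarith
  · obtain ⟨g, hg, hgb⟩ := hCK K
    have hG : VB (Real.log (r : ℝ) + C) (fun p : Pl K => cst (r : ℝ) p * g p) :=
      (VB_cst hr').mul hg
    set G : Pl K → ℝ := fun p => cst (r : ℝ) p * g p with hGdef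
    have hev : ∀ (b : Polynomial E), aeval z (hm D b (φ l) (φ l')) =
        hm D b (aeval z (φ l)) (aeval z (φ l')) := fun b =>
      hm_map (aeval z : MvPolynomial (Fin 2) E →ₐ[E] K) D b (φ l) (φ l')
    set b : ℕ → K := fun i => hm D (a i) (aeval z (φ l)) (aeval z (φ l')) with hb
    have hbr : b r ≠ 0 := by
      intro h0
      exact hbr0 (by rw [hev]; exact h0)
    have hsum : ∑ i ∈ Finset.range (r + 1), b i * z c ^ i = 0 := by
      obtain ⟨w, hw⟩ := hrel
      have h1 := congrArg (aeval z) hw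
      rw [map_mul, hz, zero_mul, map_sum] at h1
      rw [← h1]
      refine Finset.sum_congr rfl fun i _ => ?_
      rw [map_mul, map_pow, aeval_X, hev]
    have hbr' : (![b r] : Fin 1 → K) ≠ 0 := fun h => hbr (congrFun h 0)
    have h1 := ht_bd (K := K) (ι := Fin 3) Finset.univ (fun i => ![2, M, 1] i)
      (fun i => match i with
        | 0 => ![1, z c]
        | 1 => fun i => aeval z (φ i)
        | 2 => ![b r]) (fun i => match i with
        | 0 => -1
        | 1 => (D : ℝ)
        | 2 => -1) (by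
          intro i _
          match i with
          | 0 => exact vec2_ne _
          | 1 => exact hφ
          | 2 => exact hbr') G hG.1 (by
          intro p
          rw [Fin.sum_univ_three]
          show 0 ≤ -1 * Real.log (Pool.Agent.W180.OP.nrm (av p) ![1, z c]) +
            (D : ℝ) * Real.log (Pool.Agent.W180.OP.nrm (av p) (fun i => aeval z (φ i))) +
            -1 * Real.log (Pool.Agent.W180.OP.nrm (av p) ![b r]) + Real.log (G p)
          have e1 := nrm_pos (av p) hφ
          have e2 := nrm2_pos p (z c)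
          have e3 := hG.1.1 p
          have e4 : 0 < av p (b r) := (av p).pos hbr
          have e5 := loc r hr b (z c) hsum p
            (g p * Pool.Agent.W180.OP.nrm (av p) (fun i => aeval z (φ i)) ^ D)
            (hgb p _ _ _ (le_nrm (av p) (fun i => aeval z (φ i)) l)
              (le_nrm (av p) (fun i => aeval z (φ i)) l'))
          rw [← mul_assoc] at e5
          have e6 := Real.log_le_log (by positivity) e5
          rw [Real.log_mul (by positivity) (by positivity), Real.log_mul (by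
            show G p ≠ 0
            positivity) (by positivity), Real.log_pow] at e6
          rw [nrm1]
          have e7 : Real.log (cst (r : ℝ) p * g p) = Real.log (G p) := rfl
          linarith)
    rw [Fin.sum_univ_three] at h1
    have h2 : 0 ≤ -1 * logHeight ![1, z c] + (D : ℝ) * logHeight (fun i => aeval z (φ i)) +
      -1 * logHeight ![b r] + bdc G := h1
    have h3 := logHeight_nonneg (![b r] : Fin 1 → K)
    have h5 := hG.2
    have h6 : 0 ≤ (Real.log (r : ℝ) + C + C2) * logHeight (fun i => aeval z (φ i)) := by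
      positivity
    have h8 : 0 ≤ (D + C2) * (finrank ℚ K : ℝ) := by positivity
    nlinarith

end Pool.Agent.H432.AU
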