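import Mathlib
import Pool.Agent.H432.AU.Stm

/-!
# LINEU: the Belyi step with discriminants, uniformly in all extensions
-/

set_option autoImplicit false
set_option linter.unusedSectionVars false
set_option linter.unusedVariables false

namespace Pool.Agent.H432.AU

open NumberField IsDedekindDomain Height Module Polynomial
open Pool.Agent.N750 (cst cst_pos one_le_cst av_sum)
open Pool.Agent.W180.OP (Pl av nrm le_nrm nrm_pos exists_nrm nrm_nonneg)
open Pool.Agent.H432.TC (Bd bdc Bd_cst ht_bd cnt_ext exists_under mk_lt_iff over_lt vec2_ne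
  val_lt_iff)
open Pool.Agent.H432.RC (nrm2_pos nrm2_ge nrm2_le)
open Pool.Agent.Q290.NF (wt wt_nonneg wt_mono wt_or_le wt_exists_le Near Gen fin_near fin_pole
  fin_zero badP badP_fin eval_le_one zero_wt' belyi_field)

namespace PLINEU

/-! ### Bounds -/

theorem bdc_mul {K : Type} [Field K] [NumberField K] {g h : Pl K → ℝ} (hg : Bd g) (hh : Bd h) :
    bdc (fun p => g p * h p) = bdc g + bdc h := by
  have h1 : ∀ p, Real.log (g p * h p) = Real.log (g p) + Real.log (h p) := fun p =>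
    Real.log_mul (by have := hg.1 p; linarith) (by have := hh.1 p; linarith)
  have h2 : ∀ k : Pl K → ℝ, Bd k →
      (Function.support fun v : HeightOneSpectrum (𝓞 K) => Real.log (k (Sum.inr v))).Finite := by
    intro k hk
    refine (hk.2.preimage Sum.inr_injective.injOn).subset ?_
    intro v hv
    rw [Function.mem_support] at hv
    intro h0
    apply hv
    rw [h0, Real.log_one]
  unfold bdc
  simp only [h1, mul_add, Finset.sum_add_distrib]
  rw [finsum_add_distrib (h2 g hg) (h2 h hh)]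
  ring

theorem bdc_cst {K : Type} [Field K] [NumberField K] (B : ℝ) :
    bdc (cst B : Pl K → ℝ) = finrank ℚ K * Real.log B := by
  unfold bdc
  have h1 : ∀ v : HeightOneSpectrum (𝓞 K), Real.log (cst B (Sum.inr v : Pl K)) = 0 := fun v => by
    show Real.log 1 = 0
    exact Real.log_one
  have h2 : ∀ w : InfinitePlace K, cst B (Sum.inl w : Pl K) = B := fun w => rfl
  simp only [h1, h2, finsum_zero, add_zero]
  rw [← Finset.sum_mul]
  congr 1
  exact_mod_cast InfinitePlace.sum_mult_eq (K := K)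

section ext

variable {E : Type} [Field E] [NumberField E]

theorem Ov_mono {K : Type} [Field K] [NumberField K] [Algebra E K]
    {S S' : Set (HeightOneSpectrum (𝓞 E))} (h : S ⊆ S') {w : HeightOneSpectrum (𝓞 K)}
    (hw : Ov S w) : Ov S' w := by
  obtain ⟨v, hv, hl⟩ := hw
  exact ⟨v, h hv, hl⟩

theorem UB_mul {K : Type} [Field K] [NumberField K] [Algebra E K]
    {S S' : Set (HeightOneSpectrum (𝓞 E))} {C C' : ℝ} {g h : Pl K → ℝ} (hg : UB S C g)
    (hh : UB S' C' h) : UB (S ∪ S') (C + C') (fun p => g p * h p) := by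
  obtain ⟨g1, g2, g3⟩ := hg
  obtain ⟨h1, h2, h3⟩ := hh
  refine ⟨g1.mul h1, ?_, ?_⟩
  · rw [bdc_mul g1 h1, mul_add]
    linarith
  · intro w hw
    by_cases e1 : g (Sum.inr w) = 1
    · by_cases e2 : h (Sum.inr w) = 1
      · exact absurd (show g (Sum.inr w) * h (Sum.inr w) = 1 by rw [e1, e2, one_mul]) hw
      · exact Ov_mono Set.subset_union_right (h3 w e2)
    · exact Ov_mono Set.subset_union_left (g3 w e1)

theorem UB_cst {K : Type} [Field K] [NumberField K] [Algebra E K] {B : ℝ} (hB : 1 ≤ B) :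
    UB (∅ : Set (HeightOneSpectrum (𝓞 E))) (Real.log B) (cst B : Pl K → ℝ) := by
  refine ⟨Bd_cst hB, le_of_eq (bdc_cst B), ?_⟩
  intro w hw
  exact absurd rfl hw

/-- the upper bound for the values of a polynomial -/
theorem up1 (hN : S_NRM) (P : E[X]) (D : ℕ) (hD : P.natDegree ≤ D) :
    ∃ (S : Set (HeightOneSpectrum (𝓞 E))) (C : ℝ), S.Finite ∧ 0 ≤ C ∧
      ∀ (K : Type) [Field K] [NumberField K] [Algebra E K], ∃ g : Pl K → ℝ, UB S C g ∧
        ∀ (T : K) (p : Pl K), av p (aeval T P) ≤ g p * nrm (av p) ![1, T] ^ D := by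
  obtain ⟨z, hz⟩ : ∃ z : Fin (D + 2) → E, z = Fin.cons 1 (fun m : Fin (D + 1) => P.coeff m) :=
    ⟨_, rfl⟩
  have hz0 : z 0 = 1 := by rw [hz]; rfl
  have hzs : ∀ m : Fin (D + 1), z m.succ = P.coeff m := fun m => by rw [hz]; rfl
  obtain ⟨S, C, hS, hC, hK⟩ := hN E (D + 2) z 0 hz0
  have hD1 : (1 : ℝ) ≤ (D : ℝ) + 1 := by
    have : (0 : ℝ) ≤ D := Nat.cast_nonneg _
    linarith
  refine ⟨∅ ∪ S, Real.log ((D : ℝ) + 1) + C, Set.finite_empty.union hS,
    add_nonneg (Real.log_nonneg hD1) hC, ?_⟩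
  intro K _ _ _
  refine ⟨fun p => cst ((D : ℝ) + 1) p * nrm (av p) fun i => algebraMap E K (z i),
    UB_mul (UB_cst hD1) (hK K), fun T p => ?_⟩
  have h1 := nrm2_pos p T
  rw [aeval_eq_sum_range' (Nat.lt_succ_of_le hD)]
  have h2 : ∀ m ∈ Finset.range (D + 1), av p (P.coeff m • T ^ m) ≤
      nrm (av p) (fun i => algebraMap E K (z i)) * nrm (av p) ![1, T] ^ D := by
    intro m hm
    rw [Algebra.smul_def, map_mul, map_pow]
    have e1 := le_nrm (av p) (fun i => algebraMap E K (z i))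
      (Fin.succ ⟨m, Finset.mem_range.1 hm⟩)
    rw [hzs] at e1
    have e2 : av p T ^ m ≤ nrm (av p) ![1, T] ^ D :=
      calc av p T ^ m ≤ nrm (av p) ![1, T] ^ m :=
            pow_le_pow_left₀ ((av p).nonneg _) (nrm2_ge p T) m
        _ ≤ nrm (av p) ![1, T] ^ D := pow_le_pow_right₀ h1 (by
            have := Finset.mem_range.1 hm
            omega)
    exact mul_le_mul e1 e2 (pow_nonneg ((av p).nonneg _) _) (nrm_nonneg _ _)
  have h3 := av_sum p (Finset.range (D + 1)) (fun m => P.coeff m • T ^ m) _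
    (mul_nonneg (nrm_nonneg _ _) (pow_nonneg (nrm_nonneg _ _) _)) h2 ((D : ℝ) + 1) (by
      rw [Finset.card_range]
      push_cast
      exact le_rfl)
  rw [mul_assoc]
  exact h3

/-- the lower bound for the values of a polynomial -/
theorem low1 (hN : S_NRM) (P : E[X]) (hP : 1 ≤ P.natDegree) :
    ∃ (S : Set (HeightOneSpectrum (𝓞 E))) (C : ℝ), S.Finite ∧ 0 ≤ C ∧
      ∀ (K : Type) [Field K] [NumberField K] [Algebra E K], ∃ g : Pl K → ℝ, UB S C g ∧
        ∀ (T : K) (p : Pl K),
          nrm (av p) ![1, T] ^ P.natDegree ≤ g p * nrm (av p) ![1, aeval T P] := by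
  obtain ⟨D, hD⟩ : ∃ D : ℕ, D = P.natDegree := ⟨_, rfl⟩
  have hP0 : P ≠ 0 := by
    rintro rfl
    rw [natDegree_zero] at hP
    omega
  obtain ⟨U, hU⟩ : ∃ U : E[X], U = X ^ (2 * D - 1) / P := ⟨_, rfl⟩
  obtain ⟨V, hV⟩ : ∃ V : E[X], V = X ^ (2 * D - 1) % P := ⟨_, rfl⟩
  have hUV : (X : E[X]) ^ (2 * D - 1) = P * U + V := by
    rw [hU, hV]
    exact (EuclideanDomain.div_add_mod _ _).symm
  have hVd : V.natDegree ≤ D - 1 := by
    have h1 := natDegree_mod_lt (X ^ (2 * D - 1)) (q := P) (by omega)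
    rw [hV]
    omega
  have hUd : U.natDegree ≤ D - 1 := by
    by_cases hU0 : U = 0
    · rw [hU0, natDegree_zero]
      omega
    · have h1 : P * U = X ^ (2 * D - 1) - V := by
        rw [hUV]
        ring
      have h2 := natDegree_mul hP0 hU0
      rw [h1] at h2
      have h3 : ((X : E[X]) ^ (2 * D - 1) - V).natDegree ≤ 2 * D - 1 := by
        refine (natDegree_sub_le _ _).trans (max_le ?_ ?_)
        · exact (natDegree_X_pow _).le
        · omega
      omega
  obtain ⟨S1, C1, hS1, hC1, hK1⟩ := up1 hN U (D - 1) hUd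
  obtain ⟨S2, C2, hS2, hC2, hK2⟩ := up1 hN V (D - 1) hVd
  refine ⟨∅ ∪ (S1 ∪ S2), Real.log 2 + (C1 + C2), Set.finite_empty.union (hS1.union hS2),
    add_nonneg (Real.log_nonneg (by norm_num)) (add_nonneg hC1 hC2), ?_⟩
  intro K _ _ _
  obtain ⟨g1, hg1, h1⟩ := hK1 K
  obtain ⟨g2, hg2, h2⟩ := hK2 K
  refine ⟨fun p => cst 2 p * (g1 p * g2 p), UB_mul (UB_cst (by norm_num)) (UB_mul hg1 hg2),
    fun T p => ?_⟩
  have hR := nrm2_pos p T
  have hY := nrm2_pos p (aeval T P)
  have hYP := nrm2_ge p (aeval T P)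
  have a1 := hg1.1.1 p
  have a2 := hg2.1.1 p
  have a3 := one_le_cst (by norm_num : (1 : ℝ) ≤ 2) p
  have k1 := h1 T p
  have k2 := h2 T p
  rw [← hD]
  obtain ⟨R, hRR⟩ : ∃ R : ℝ, R = nrm (av p) ![1, T] := ⟨_, rfl⟩
  obtain ⟨Y, hYY⟩ : ∃ Y : ℝ, Y = nrm (av p) ![1, aeval T P] := ⟨_, rfl⟩
  rw [← hRR] at hR k1 k2 ⊢
  rw [← hYY] at hY hYP ⊢
  have hRD : 1 ≤ R ^ (D - 1) := one_le_pow₀ hR
  have k3 : ∀ b : Fin 2, av p (![aeval T P * aeval T U, aeval T V] b) ≤
      g1 p * g2 p * R ^ (D - 1) * Y := by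
    intro b
    match b with
    | 0 =>
      show av p (aeval T P * aeval T U) ≤ _
      rw [map_mul]
      calc av p (aeval T P) * av p (aeval T U) ≤ Y * (g1 p * R ^ (D - 1)) :=
            mul_le_mul hYP k1 ((av p).nonneg _) (by linarith)
        _ = g1 p * 1 * R ^ (D - 1) * Y := by ring
        _ ≤ g1 p * g2 p * R ^ (D - 1) * Y := by gcongr
    | 1 =>
      show av p (aeval T V) ≤ _
      calc av p (aeval T V) ≤ g2 p * R ^ (D - 1) := k2
        _ = 1 * g2 p * R ^ (D - 1) * 1 := by ring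
        _ ≤ g1 p * g2 p * R ^ (D - 1) * Y := by gcongr
  have k4 := av_sum p Finset.univ (![aeval T P * aeval T U, aeval T V] : Fin 2 → K) _
    (by positivity) (fun b _ => k3 b) 2 (by
      rw [Finset.card_univ, Fintype.card_fin]
      norm_num)
  rw [Fin.sum_univ_two] at k4
  have k5 : (![aeval T P * aeval T U, aeval T V] : Fin 2 → K) 0 +
      (![aeval T P * aeval T U, aeval T V] : Fin 2 → K) 1 = T ^ (2 * D - 1) := by
    show aeval T P * aeval T U + aeval T V = T ^ (2 * D - 1)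
    rw [← map_mul, ← map_add, ← hUV, map_pow, aeval_X]
  rw [k5, map_pow] at k4
  -- the norm
  have k6 : R ^ (2 * D - 1) ≤ cst 2 p * (g1 p * g2 p * R ^ (D - 1) * Y) := by
    obtain ⟨i, hi⟩ := exists_nrm (av p) (n := 2) (by norm_num) ![1, T]
    match i, hi with
    | 0, hi =>
      have e1 : R = 1 := by
        rw [hRR, ← hi]
        exact map_one _
      calc R ^ (2 * D - 1) = 1 := by rw [e1, one_pow]
        _ = 1 * (1 * 1 * 1 * 1) := by ring
        _ ≤ cst 2 p * (g1 p * g2 p * R ^ (D - 1) * Y) := by gcongr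
    | 1, hi =>
      have e1 : R = av p T := by
        rw [hRR, ← hi]
        rfl
      calc R ^ (2 * D - 1) = av p T ^ (2 * D - 1) := by rw [e1]
        _ ≤ _ := k4
  have k7 : R ^ (2 * D - 1) = R ^ D * R ^ (D - 1) := by
    rw [← pow_add]
    congr 1
    omega
  rw [k7] at k6
  have k8 : 0 < R ^ (D - 1) := by linarith
  refine le_of_mul_le_mul_right ?_ k8
  calc R ^ D * R ^ (D - 1) ≤ _ := k6
    _ = _ := by ring

theorem lh1 {K : Type} [Field K] [NumberField K] (x : K) : logHeight ![1, x] = logHeight₁ x := by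
  rw [logHeight₁_eq_logHeight, logHeight_swap]

/-- heights of the values, upper bound -/
theorem ht_up (hN : S_NRM) (P : E[X]) : ∃ C : ℝ, 0 ≤ C ∧
    ∀ (K : Type) [Field K] [NumberField K] [Algebra E K] (T : K),
      logHeight₁ (aeval T P) ≤ P.natDegree * logHeight₁ T + finrank ℚ K * C := by
  obtain ⟨S, C, -, hC, hK⟩ := up1 hN P P.natDegree le_rfl
  refine ⟨C, hC, ?_⟩
  intro K _ _ _ T
  obtain ⟨g, hg, h⟩ := hK K
  have h1 := ht_bd (ι := Fin 2) Finset.univ (fun i => ![2, 2] i)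
    (fun i => match i with
      | 0 => ![1, aeval T P]
      | 1 => ![1, T]) (fun i => match i with
      | 0 => -1
      | 1 => (P.natDegree : ℝ)) (by
        intro i _
        match i with
        | 0 => exact vec2_ne _
        | 1 => exact vec2_ne T) g hg.1 (by
        intro p
        rw [Fin.sum_univ_two]
        show 0 ≤ -1 * Real.log (nrm (av p) ![1, aeval T P]) +
          (P.natDegree : ℝ) * Real.log (nrm (av p) ![1, T]) + Real.log (g p)
        have e1 := nrm2_pos p (aeval T P)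
        have e2 := nrm2_pos p T
        have e3 := hg.1.1 p
        have e4 : nrm (av p) ![1, aeval T P] ≤ g p * nrm (av p) ![1, T] ^ P.natDegree :=
          nrm2_le p _ (one_le_mul_of_one_le_of_one_le e3 (one_le_pow₀ e2)) (h T p)
        have e5 := Real.log_le_log (by linarith) e4
        rw [Real.log_mul (by linarith) (by positivity), Real.log_pow] at e5
        linarith)
  rw [Fin.sum_univ_two] at h1
  have h2 : 0 ≤ -1 * logHeight ![1, aeval T P] + (P.natDegree : ℝ) * logHeight ![1, T] +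
    bdc g := h1
  rw [lh1, lh1] at h2
  have := hg.2.1
  linarith

/-- heights of the values, lower bound -/
theorem ht_low (hN : S_NRM) (P : E[X]) (hP : 1 ≤ P.natDegree) : ∃ C : ℝ, 0 ≤ C ∧
    ∀ (K : Type) [Field K] [NumberField K] [Algebra E K] (T : K),
      P.natDegree * logHeight₁ T ≤ logHeight₁ (aeval T P) + finrank ℚ K * C := by
  obtain ⟨S, C, -, hC, hK⟩ := low1 hN P hP
  refine ⟨C, hC, ?_⟩
  intro K _ _ _ T
  obtain ⟨g, hg, h⟩ := hK K
  have h1 := ht_bd (ι := Fin 2) Finset.univ (fun i => ![2, 2] i)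
    (fun i => match i with
      | 0 => ![1, aeval T P]
      | 1 => ![1, T]) (fun i => match i with
      | 0 => 1
      | 1 => -(P.natDegree : ℝ)) (by
        intro i _
        match i with
        | 0 => exact vec2_ne _
        | 1 => exact vec2_ne T) g hg.1 (by
        intro p
        rw [Fin.sum_univ_two]
        show 0 ≤ 1 * Real.log (nrm (av p) ![1, aeval T P]) +
          -(P.natDegree : ℝ) * Real.log (nrm (av p) ![1, T]) + Real.log (g p)
        have e1 := nrm2_pos p (aeval T P)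
        have e2 := nrm2_pos p T
        have e3 := hg.1.1 p
        have e5 := Real.log_le_log (by positivity) (h T p)
        rw [Real.log_mul (by linarith) (by linarith), Real.log_pow] at e5
        linarith)
  rw [Fin.sum_univ_two] at h1
  have h2 : 0 ≤ 1 * logHeight ![1, aeval T P] + -(P.natDegree : ℝ) * logHeight ![1, T] +
    bdc g := h1
  rw [lh1, lh1] at h2
  have := hg.2.1
  linarith

/-! ### Primes -/

theorem val_gt_iff {K : Type} [Field K] [NumberField K] [Algebra E K]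
    {v : HeightOneSpectrum (𝓞 E)} {Q : HeightOneSpectrum (𝓞 K)}
    (h : Q.asIdeal.LiesOver v.asIdeal) (x : E) :
    1 < Q.valuation K (algebraMap E K x) ↔ 1 < v.valuation E x := by
  have h1 := over_lt h (x := 1) (y := x)
  have h2 := mk_lt_iff (v := Q) (x := algebraMap E K 1) (y := algebraMap E K x)
  have h3 := mk_lt_iff (v := v) (x := 1) (y := x)
  rw [map_one (algebraMap E K), map_one (Q.valuation K)] at h2
  rw [map_one (v.valuation E)] at h3
  rw [map_one (algebraMap E K)] at h1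
  exact h2.symm.trans (h1.trans h3)

theorem badP_map {K : Type} [Field K] [NumberField K] [Algebra E K] (P : E[X])
    {w : HeightOneSpectrum (𝓞 K)} (hw : w ∈ badP (P.map (algebraMap E K))) :
    Ov (badP P) w := by
  obtain ⟨i, hi⟩ := hw
  obtain ⟨v, hv⟩ := exists_under (L := E) w
  rw [coeff_map] at hi
  exact ⟨v, ⟨i, (val_gt_iff hv _).1 hi⟩, hv⟩

theorem two_map {K : Type} [Field K] [NumberField K] [Algebra E K]
    {w : HeightOneSpectrum (𝓞 K)} (hw : 1 < w.valuation K (2 : K)⁻¹) :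
    Ov {v : HeightOneSpectrum (𝓞 E) | 1 < v.valuation E (2 : E)⁻¹} w := by
  obtain ⟨v, hv⟩ := exists_under (L := E) w
  refine ⟨v, ?_, hv⟩
  rw [Set.mem_ofPred_eq, ← val_gt_iff hv, map_inv₀, map_ofNat]
  exact hw

/-- the primes near `1 / (2 f(x) - 1)` -/
theorem near_incl {K ι : Type} [Field K] [NumberField K] (F D Rk Qk G : K[X]) (A : Finset ι)
    (a : ι → K) (M : ℕ) (e1 : F * (F - 1) = D * Rk) (e2 : Rk ^ M = D * Qk)
    (e3 : Rk = (∏ α ∈ A, (X - C (a α))) * G) {x y : K} (hy2 : y = 2 * F.eval x - 1) (hPx : y ≠ 0)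
    {v : HeightOneSpectrum (𝓞 K)} (bF : v ∉ badP F) (bR : v ∉ badP Rk) (bQ : v ∉ badP Qk)
    (b2 : ¬ 1 < v.valuation K (2 : K)⁻¹) (hx1 : v.valuation K x ≤ 1) (hv : Near y⁻¹ v) :
    (∃ α ∈ A, v.valuation K (x - a α) < 1) ∨ v.valuation K (G.eval x) < 1 := by
  classical
  by_contra hcon
  rw [not_or, not_lt] at hcon
  obtain ⟨hα, hGv⟩ := hcon
  have v2 : v.valuation K (2 : K) = 1 := by
    have e2 : v.valuation K (2 : K) ≤ 1 := by
      have h : v.valuation K (algebraMap (𝓞 K) K 2) ≤ 1 :=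
        v.valuation_le_one (K := K) (2 : 𝓞 K)
      rwa [map_ofNat] at h
    refine le_antisymm e2 ?_
    rw [not_lt, map_inv₀] at b2
    have h0 : v.valuation K (2 : K) ≠ 0 := (Valuation.ne_zero_iff _).2 two_ne_zero
    exact (inv_le_one₀ (zero_lt_iff.2 h0)).1 b2
  have vF := eval_le_one bF hx1
  have vR := eval_le_one bR hx1
  have vQ := eval_le_one bQ hx1
  have vF1 : v.valuation K (F.eval x - 1) ≤ 1 :=
    Valuation.map_sub_le _ vF (by rw [map_one])
  have vy : v.valuation K y ≤ 1 := by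
    rw [hy2]
    refine Valuation.map_sub_le _ ?_ (by rw [map_one])
    rw [map_mul, v2, one_mul]
    exact vF
  have vy0 : v.valuation K y ≠ 0 := (Valuation.ne_zero_iff _).2 hPx
  have hW1 : v.valuation K (F.eval x * (F.eval x - 1)) < 1 := by
    rw [map_mul]
    rcases hv with h | h | h
    · exfalso
      rw [map_inv₀] at h
      exact absurd ((inv_lt_one₀ (zero_lt_iff.2 vy0)).1 h) (not_lt.2 vy)
    · have e5 : y⁻¹ - 1 = -(2 * (F.eval x - 1)) / y := by
        field_simp
        rw [hy2]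
        ring
      rw [e5, map_div₀, Valuation.map_neg, map_mul, v2, one_mul,
        div_lt_one₀ (zero_lt_iff.2 vy0)] at h
      exact mul_lt_one_of_nonneg_of_lt_one_right vF zero_le (h.trans_le vy)
    · have e5 : y⁻¹ + 1 = (2 * F.eval x) / y := by
        field_simp
        rw [hy2]
        ring
      rw [e5, map_div₀, map_mul, v2, one_mul, div_lt_one₀ (zero_lt_iff.2 vy0)] at h
      exact mul_lt_one_of_nonneg_of_lt_one_left zero_le (h.trans_le vy) vF1
  have hR1 : v.valuation K (Rk.eval x) < 1 := by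
    by_contra hcon
    rw [not_lt] at hcon
    have h3 : v.valuation K (Rk.eval x) = 1 := le_antisymm vR hcon
    have h4 : v.valuation K (D.eval x) * v.valuation K (Qk.eval x) = 1 := by
      rw [← map_mul, ← eval_mul, ← e2, eval_pow, map_pow, h3, one_pow]
    have h5 : 1 ≤ v.valuation K (D.eval x) := by
      by_contra h6
      rw [not_le] at h6
      have h7 := mul_lt_one_of_nonneg_of_lt_one_left zero_le h6 vQ
      exact absurd h4 h7.ne
    have h6 : v.valuation K (F.eval x * (F.eval x - 1)) = v.valuation K (D.eval x) := by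
      have h7 : F.eval x * (F.eval x - 1) = (F * (F - 1)).eval x := by
        rw [eval_mul, eval_sub, eval_one]
      rw [h7, e1, eval_mul, map_mul, h3, mul_one]
    rw [h6] at hW1
    exact absurd hW1 (not_lt.2 h5)
  rw [e3, eval_mul, map_mul, eval_prod, map_prod] at hR1
  have h8 : (1 : _) ≤ ∏ α ∈ A, v.valuation K ((X - C (a α) : K[X]).eval x) := by
    refine Finset.one_le_prod' fun α hαA => ?_
    rw [eval_sub, eval_X, eval_C]
    by_contra h9
    exact hα ⟨α, hαA, not_le.1 h9⟩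
  exact absurd hR1 (not_lt.2 (one_le_mul h8 hGv))

end ext

theorem log_disc_nonneg (K : Type) [Field K] [NumberField K] :
    0 ≤ Real.log |(discr K : ℝ)| := by
  apply Real.log_nonneg
  have h1 : 1 ≤ |discr K| := Int.one_le_abs (discr_ne_zero K)
  exact_mod_cast h1

end PLINEU

open PLINEU in
theorem lineu (nrm : S_NRM) (locbu : S_LOCBU) : S_LINEU := by
  classical
  intro E _ _ R hR A S hS ε hε
  obtain ⟨f, Rp, G, M, hf, hRp, ⟨Q, hQ⟩, hG0, hRG, hdeg⟩ := belyi_field E A
  obtain ⟨n, hn⟩ : ∃ n : ℕ, n = f.natDegree := ⟨_, rfl⟩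
  rw [← hn] at hf hdeg
  have hn0 : (0 : ℝ) < n := by exact_mod_cast hf
  -- the polynomials over `E`
  obtain ⟨F, hF⟩ : ∃ F : E[X], F = f.map (algebraMap ℚ E) := ⟨_, rfl⟩
  obtain ⟨D, hD⟩ : ∃ D : E[X], D = (derivative f).map (algebraMap ℚ E) := ⟨_, rfl⟩
  obtain ⟨Rk, hRk⟩ : ∃ Rk : E[X], Rk = Rp.map (algebraMap ℚ E) := ⟨_, rfl⟩
  obtain ⟨Qk, hQk⟩ : ∃ Qk : E[X], Qk = Q.map (algebraMap ℚ E) := ⟨_, rfl⟩
  have e1 : F * (F - 1) = D * Rk := by
    rw [hF, hD, hRk, ← Polynomial.map_mul, ← hRp, Polynomial.map_mul, Polynomial.map_sub,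
      Polynomial.map_one]
  have e2 : Rk ^ M = D * Qk := by
    rw [hD, hRk, hQk, ← Polynomial.map_mul, ← hQ, Polynomial.map_pow]
  have e3 : Rk = (∏ α ∈ A, (X - C α)) * G := by rw [hRk]; exact hRG
  have hFd : F.natDegree = n := by rw [hF, natDegree_map, hn]
  obtain ⟨P, hP⟩ : ∃ P : E[X], P = C 2 * F - 1 := ⟨_, rfl⟩
  have hPd : P.natDegree = n := by
    rw [hP]
    have : (1 : E[X]) = C 1 := C_1.symm
    rw [this, natDegree_sub_C, natDegree_C_mul two_ne_zero, hFd]
  -- the constants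
  obtain ⟨C0, hC0⟩ := hR (ε / n) (by positivity)
  obtain ⟨C2, hC20, hC2⟩ := ht_low nrm P (by rw [hPd]; exact hf)
  obtain ⟨C3, hC30, hC3⟩ := ht_up nrm G
  -- the bad primes
  obtain ⟨B, hB⟩ : ∃ B : Set (HeightOneSpectrum (𝓞 E)), B =
    (badP F ∪ badP Rk ∪ badP Qk ∪ {v | 1 < v.valuation E (2 : E)⁻¹}) ∪ S := ⟨_, rfl⟩
  have hBf : B.Finite := by
    rw [hB]
    exact ((((badP_fin F).union (badP_fin Rk)).union (badP_fin Qk)).union (fin_pole _)).union hS
  obtain ⟨CB, hCB⟩ : ∃ c : ℝ, c = wt (fun v : HeightOneSpectrum (𝓞 E) => v ∈ B) := ⟨_, rfl⟩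
  have hCB0 : 0 ≤ CB := by rw [hCB]; exact wt_nonneg _
  -- the exceptional points
  obtain ⟨Z, hZ⟩ : ∃ Z : E[X], Z = F * (F - 1) * P * G := ⟨_, rfl⟩
  have hF0 : F ≠ 0 := by
    rintro h
    rw [h, natDegree_zero] at hFd
    omega
  have hF10 : F - 1 ≠ 0 := by
    intro h
    rw [sub_eq_zero.1 h, natDegree_one] at hFd
    omega
  have hP0 : P ≠ 0 := by
    rintro h
    rw [h, natDegree_zero] at hPd
    omega
  have hZd : 1 ≤ Z.natDegree := by
    rw [hZ, natDegree_mul (mul_ne_zero (mul_ne_zero hF0 hF10) hP0) hG0,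
      natDegree_mul (mul_ne_zero hF0 hF10) hP0, natDegree_mul hF0 hF10, hFd]
    omega
  obtain ⟨C4, hC40, hC4⟩ := ht_low nrm Z hZd
  refine ⟨|C0| + C2 + C3 + CB + |(A.card : ℝ) - 1 - ε| * C4, ?_⟩
  intro K _ _ _ hRK x hxA
  -- the degree
  obtain ⟨d, hd⟩ : ∃ d : ℝ, d = (finrank ℚ K : ℝ) := ⟨_, rfl⟩
  have hd1 : 1 ≤ d := by
    rw [hd]
    exact_mod_cast Nat.succ_le_of_lt (finrank_pos (R := ℚ) (M := K))
  have hdE : (finrank E K : ℝ) ≤ d := by
    rw [hd]
    have h1 := finrank_mul_finrank ℚ E K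
    have h2 : 0 < finrank ℚ E := finrank_pos
    have h3 : finrank E K ≤ finrank ℚ K := by nlinarith
    exact_mod_cast h3
  have hlog := log_disc_nonneg K
  obtain ⟨ld, hld⟩ : ∃ ld : ℝ, ld = Real.log |(discr K : ℝ)| := ⟨_, rfl⟩
  have hh := zero_le_logHeight₁ x
  have hC0K := hC0 K hRK
  have hC2K := hC2 K x
  have hC3K := hC3 K x
  have hC4K := hC4 K x
  rw [← hd] at hC2K hC3K hC4K ⊢
  simp only [← hd] at hC0K
  rw [← hld] at hlog ⊢
  simp only [← hld] at hC0K
  have hwp := wt_nonneg (fun v : HeightOneSpectrum (𝓞 K) => ¬ Ov S v ∧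
          (1 < v.valuation K x ∨ ∃ α ∈ A, v.valuation K (x - algebraMap E K α) < 1))
  have hd0 : 0 ≤ d := by linarith
  have p0 : 0 ≤ d * |C0| := mul_nonneg hd0 (abs_nonneg _)
  have p2 : 0 ≤ d * C2 := mul_nonneg hd0 hC20
  have p3 : 0 ≤ d * C3 := mul_nonneg hd0 hC30
  have pB : 0 ≤ d * CB := mul_nonneg hd0 hCB0
  have p4 : 0 ≤ d * (|(A.card : ℝ) - 1 - ε| * C4) :=
    mul_nonneg hd0 (mul_nonneg (abs_nonneg _) hC40)
  have hdist : d * (|C0| + C2 + C3 + CB + |(A.card : ℝ) - 1 - ε| * C4) =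
      d * |C0| + d * C2 + d * C3 + d * CB + d * (|(A.card : ℝ) - 1 - ε| * C4) := by ring
  rw [hdist]
  by_cases hZx : aeval x Z = 0
  · rw [hZx, logHeight₁_zero, zero_add] at hC4K
    have h1 : logHeight₁ x ≤ d * C4 := by
      refine le_trans ?_ hC4K
      have h2 : (1 : ℝ) ≤ Z.natDegree := by exact_mod_cast hZd
      nlinarith
    have h3 : ((A.card : ℝ) - 1 - ε) * logHeight₁ x ≤ |(A.card : ℝ) - 1 - ε| * (d * C4) :=
      (mul_le_mul_of_nonneg_right (le_abs_self _) hh).trans
        (mul_le_mul_of_nonneg_left h1 (abs_nonneg _))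
    have h4 : |(A.card : ℝ) - 1 - ε| * (d * C4) = d * (|(A.card : ℝ) - 1 - ε| * C4) := by ring
    rw [h4] at h3
    linarith
  · rw [hZ, map_mul, map_mul, map_mul] at hZx
    have hG : aeval x G ≠ 0 := right_ne_zero_of_mul hZx
    have hPx : aeval x P ≠ 0 := right_ne_zero_of_mul (left_ne_zero_of_mul hZx)
    have hW := left_ne_zero_of_mul (left_ne_zero_of_mul hZx)
    have hFx : aeval x F ≠ 0 := left_ne_zero_of_mul hW
    have hF1 : aeval x (F - 1) ≠ 0 := right_ne_zero_of_mul hW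
    rw [map_sub, map_one] at hF1
    obtain ⟨y, hy⟩ : ∃ y : K, y = aeval x P := ⟨_, rfl⟩
    rw [← hy] at hPx
    have hy2 : y = 2 * aeval x F - 1 := by
      rw [hy, hP, map_sub, map_one, map_mul, aeval_C, map_ofNat]
    have hgen : Gen y⁻¹ := by
      refine ⟨inv_ne_zero hPx, ?_, ?_⟩
      · intro h
        rw [inv_eq_one] at h
        apply hF1
        linear_combination (h - hy2) / 2
      · intro h
        have h1 : y = -1 := by rw [← inv_inv y, h, inv_neg, inv_one]
        apply hFx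
        linear_combination (h1 - hy2) / 2
    have hdown := hC0K y hgen
    rw [logHeight₁_inv] at hdown
    -- the polynomials over `K`
    have E1 : F.map (algebraMap E K) * (F.map (algebraMap E K) - 1) =
        D.map (algebraMap E K) * Rk.map (algebraMap E K) := by
      rw [← Polynomial.map_mul, ← e1, Polynomial.map_mul, Polynomial.map_sub, Polynomial.map_one]
    have E2 : Rk.map (algebraMap E K) ^ M = D.map (algebraMap E K) * Qk.map (algebraMap E K) := by
      rw [← Polynomial.map_mul, ← e2, Polynomial.map_pow]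
    have E3 : Rk.map (algebraMap E K) =
        (∏ α ∈ A, (X - C (algebraMap E K α))) * G.map (algebraMap E K) := by
      rw [e3, Polynomial.map_mul, Polynomial.map_prod]
      congr 1
      refine Finset.prod_congr rfl fun α _ => ?_
      rw [Polynomial.map_sub, map_X, map_C]
    have hy3 : y = 2 * (F.map (algebraMap E K)).eval x - 1 := by
      rw [eval_map_algebraMap]
      exact hy2
    have hnear : ∀ v : HeightOneSpectrum (𝓞 K), Near y⁻¹ v →
        Ov B v ∨ ((¬ Ov S v ∧
          (1 < v.valuation K x ∨ ∃ α ∈ A, v.valuation K (x - algebraMap E K α) < 1)) ∨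
          v.valuation K (aeval x G) < 1) := by
      intro v hv
      by_cases hb : Ov B v
      · exact Or.inl hb
      right
      have hbS : ¬ Ov S v := fun h => hb (Ov_mono (by rw [hB]; exact Set.subset_union_right) h)
      have hsub : ∀ T : Set (HeightOneSpectrum (𝓞 E)), T ⊆ B → ¬ Ov T v :=
        fun T hT h => hb (Ov_mono hT h)
      by_cases hx1 : 1 < v.valuation K x
      · exact Or.inl ⟨hbS, Or.inl hx1⟩
      rw [not_lt] at hx1
      have b1 : v ∉ badP (F.map (algebraMap E K)) := fun h =>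
        hsub _ (fun u hu => by rw [hB]; exact Or.inl (Or.inl (Or.inl (Or.inl hu)))) (badP_map F h)
      have b2 : v ∉ badP (Rk.map (algebraMap E K)) := fun h =>
        hsub _ (fun u hu => by rw [hB]; exact Or.inl (Or.inl (Or.inl (Or.inr hu)))) (badP_map Rk h)
      have b3 : v ∉ badP (Qk.map (algebraMap E K)) := fun h =>
        hsub _ (fun u hu => by rw [hB]; exact Or.inl (Or.inl (Or.inr hu))) (badP_map Qk h)
      have b4 : ¬ 1 < v.valuation K (2 : K)⁻¹ := fun h =>
        hsub _ (fun u hu => by rw [hB]; exact Or.inl (Or.inr hu)) (two_map (E := E) h)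
      have h5 := near_incl _ _ _ _ _ A (fun α => algebraMap E K α) M E1 E2 E3 hy3 hPx b1 b2 b3 b4
        hx1 hv
      rcases h5 with h5 | h5
      · exact Or.inl ⟨hbS, Or.inr h5⟩
      · rw [eval_map_algebraMap] at h5
        exact Or.inr h5
    -- the weights
    obtain ⟨hf1, hw1⟩ := cnt_ext (L := E) (E := K) (fun v => v ∈ B) hBf (fun w => Ov B w)
      (fun Q hQ => hQ)
    rw [← hCB] at hw1
    obtain ⟨hf2, -⟩ := wt_exists_le A (fun α (v : HeightOneSpectrum (𝓞 K)) =>
      v.valuation K (x - algebraMap E K α) < 1) (fun α hαA => fin_zero (sub_ne_zero.2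
        (hxA α hαA)))
    have hf3 : {v : HeightOneSpectrum (𝓞 K) | v.valuation K (aeval x G) < 1}.Finite :=
      fin_zero hG
    have hf4 : {v : HeightOneSpectrum (𝓞 K) | ¬ Ov S v ∧
        (1 < v.valuation K x ∨ ∃ α ∈ A, v.valuation K (x - algebraMap E K α) < 1)}.Finite :=
      ((fin_pole x).union hf2).subset fun v hv => hv.2
    have hf5 : {v : HeightOneSpectrum (𝓞 K) | (¬ Ov S v ∧
        (1 < v.valuation K x ∨ ∃ α ∈ A, v.valuation K (x - algebraMap E K α) < 1)) ∨
        v.valuation K (aeval x G) < 1}.Finite := hf4.union hf3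
    have hle1 : wt (fun v => Near y⁻¹ v) ≤ wt (fun w : HeightOneSpectrum (𝓞 K) => Ov B w) +
        wt (fun v : HeightOneSpectrum (𝓞 K) => (¬ Ov S v ∧
        (1 < v.valuation K x ∨ ∃ α ∈ A, v.valuation K (x - algebraMap E K α) < 1)) ∨
        v.valuation K (aeval x G) < 1) :=
      (wt_mono (hf1.union hf5) hnear).trans (wt_or_le hf1 hf5)
    have hle2 : wt (fun v : HeightOneSpectrum (𝓞 K) => (¬ Ov S v ∧
        (1 < v.valuation K x ∨ ∃ α ∈ A, v.valuation K (x - algebraMap E K α) < 1)) ∨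
        v.valuation K (aeval x G) < 1) ≤
        wt (fun v : HeightOneSpectrum (𝓞 K) => ¬ Ov S v ∧
        (1 < v.valuation K x ∨ ∃ α ∈ A, v.valuation K (x - algebraMap E K α) < 1)) +
        wt (fun v : HeightOneSpectrum (𝓞 K) => v.valuation K (aeval x G) < 1) :=
      wt_or_le hf4 hf3
    have hle3 := (zero_wt' hG).trans hC3K
    have hle4 : wt (fun w : HeightOneSpectrum (𝓞 K) => Ov B w) ≤ d * CB :=
      hw1.trans (mul_le_mul_of_nonneg_right hdE hCB0)
    rw [hPd, ← hy] at hC2K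
    have hdeg' : (A.card : ℝ) + G.natDegree = n + 1 := by exact_mod_cast hdeg
    have hd00 : d * C0 ≤ d * |C0| := mul_le_mul_of_nonneg_left (le_abs_self C0) hd0
    have hhy := zero_le_logHeight₁ y
    have hmain : ((n : ℝ) - ε) * logHeight₁ x ≤ (1 - ε / n) * logHeight₁ y + d * C2 ∨
        (n : ℝ) - ε ≤ 0 := by
      by_cases hεn : ε ≤ n
      · left
        have h3 : 0 ≤ 1 - ε / n := by
          rw [sub_nonneg, div_le_one hn0]
          exact hεn
        have h4 := mul_le_mul_of_nonneg_left hC2K h3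
        have h5 : (1 - ε / n) * (n * logHeight₁ x) = ((n : ℝ) - ε) * logHeight₁ x := by
          field_simp
        have h6 : (1 - ε / n) * (logHeight₁ y + d * C2) ≤ (1 - ε / n) * logHeight₁ y + d * C2 := by
          rw [mul_add]
          have h8 : (1 - ε / n) * (d * C2) ≤ 1 * (d * C2) := by
            refine mul_le_mul_of_nonneg_right ?_ p2
            have : 0 ≤ ε / n := by positivity
            linarith
          linarith
        linarith
      · right
        linarith
    have hcard : ((A.card : ℝ) - 1 - ε) * logHeight₁ x =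
        ((n : ℝ) - ε) * logHeight₁ x - G.natDegree * logHeight₁ x := by
      have : (A.card : ℝ) = n + 1 - G.natDegree := by linarith
      rw [this]
      ring
    rcases hmain with h3 | h3
    · linarith
    · have h4 : ((n : ℝ) - ε) * logHeight₁ x ≤ 0 := mul_nonpos_of_nonpos_of_nonneg h3 hh
      have h5 : 0 ≤ (G.natDegree : ℝ) * logHeight₁ x := by positivity
      linarith

end Pool.Agent.H432.AU
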