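import Mathlib
import Pool.Agent.H432.AU.Stm
import Pool.Agent.H432.TC.Bd

/-!
Project AU, task LOCBU: local bounds from an integral relation, uniformly in all extensions
(helper870, after AC/P_LOCB.lean).
-/

set_option autoImplicit false

namespace Pool.Agent.H432.AU

open MvPolynomial Filter Pool.Agent.N750 Pool.Agent.H432.RC NumberField IsDedekindDomain Module
open Pool.Agent.W180.OP (Pl av wt nrm le_nrm nrm_nonneg)
open Pool.Agent.H432.TC (Bd bdc)

namespace PLOCBU

open Pool.Agent.H432.TC (Bd_cst Bd_nrm le_prod_bd)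

section UB

variable {E K : Type} [Field E] [NumberField E] [Field K] [NumberField K] [Algebra E K]

theorem bdc_mul {g h : Pl K → ℝ} (hg : Bd g) (hh : Bd h) :
    bdc (fun p => g p * h p) = bdc g + bdc h := by
  have hl : ∀ p : Pl K, Real.log (g p * h p) = Real.log (g p) + Real.log (h p) := fun p =>
    Real.log_mul (by have := hg.1 p; positivity) (by have := hh.1 p; positivity)
  have hfin : ∀ {u : Pl K → ℝ}, Bd u →
      (Function.support fun v : HeightOneSpectrum (𝓞 K) => Real.log (u (Sum.inr v))).Finite := by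
    intro u hu
    refine (hu.2.preimage (f := (Sum.inr : HeightOneSpectrum (𝓞 K) → Pl K))
      Sum.inr_injective.injOn).subset ?_
    intro v hv h1
    apply hv
    show Real.log (u (Sum.inr v)) = 0
    rw [h1, Real.log_one]
  unfold bdc
  simp only [hl]
  rw [finsum_add_distrib (hfin hg) (hfin hh)]
  simp only [mul_add, Finset.sum_add_distrib]
  ring

theorem UB_mul {S S' : Set (HeightOneSpectrum (𝓞 E))} {C C' : ℝ} {g h : Pl K → ℝ}
    (hg : UB S C g) (hh : UB S' C' h) : UB (S ∪ S') (C + C') (fun p => g p * h p) := by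
  refine ⟨hg.1.mul hh.1, ?_, ?_⟩
  · rw [bdc_mul hg.1 hh.1, mul_add]
    exact add_le_add hg.2.1 hh.2.1
  · intro w hw
    by_cases h1 : g (Sum.inr w) = 1
    · have h2 : h (Sum.inr w) ≠ 1 := by
        intro h2
        apply hw
        show g (Sum.inr w) * h (Sum.inr w) = 1
        rw [h1, h2, mul_one]
      obtain ⟨v, hv, hvw⟩ := hh.2.2 w h2
      exact ⟨v, Or.inr hv, hvw⟩
    · obtain ⟨v, hv, hvw⟩ := hg.2.2 w h1
      exact ⟨v, Or.inl hv, hvw⟩

theorem UB_mono {S S' : Set (HeightOneSpectrum (𝓞 E))} {C C' : ℝ} {g : Pl K → ℝ}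
    (hg : UB S C g) (hS : S ⊆ S') (hC : C ≤ C') : UB S' C' g := by
  refine ⟨hg.1, hg.2.1.trans (mul_le_mul_of_nonneg_left hC (Nat.cast_nonneg _)), ?_⟩
  intro w hw
  obtain ⟨v, hv, hvw⟩ := hg.2.2 w hw
  exact ⟨v, hS hv, hvw⟩

theorem bdc_cst (B : ℝ) : bdc (cst B : Pl K → ℝ) = finrank ℚ K * Real.log B := by
  unfold bdc
  have h1 : ∑ᶠ v : HeightOneSpectrum (𝓞 K), Real.log ((cst B : Pl K → ℝ) (Sum.inr v)) = 0 := by
    have h2 : ∀ v : HeightOneSpectrum (𝓞 K), Real.log ((cst B : Pl K → ℝ) (Sum.inr v)) = 0 :=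
      fun v => Real.log_one
    simp only [h2, finsum_zero]
  rw [h1, add_zero]
  have h3 : ∀ w : InfinitePlace K, (w.mult : ℝ) * Real.log ((cst B : Pl K → ℝ) (Sum.inl w)) =
      (w.mult : ℝ) * Real.log B := fun w => rfl
  simp only [h3]
  rw [← Finset.sum_mul, ← Nat.cast_sum, InfinitePlace.sum_mult_eq]

theorem UB_cst {B : ℝ} (hB : 1 ≤ B) :
    UB (∅ : Set (HeightOneSpectrum (𝓞 E))) (Real.log B) (cst B : Pl K → ℝ) := by
  refine ⟨Bd_cst hB, (bdc_cst B).le, ?_⟩
  intro w hw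
  exact absurd rfl hw

theorem UB_one : UB (∅ : Set (HeightOneSpectrum (𝓞 E))) 0 (fun _ : Pl K => (1 : ℝ)) := by
  refine ⟨Pool.Agent.H432.TC.Bd_one, ?_, ?_⟩
  · unfold bdc
    simp
  · intro w hw
    exact absurd rfl hw

theorem UB_prod {ι : Type} (s : Finset ι) (S : ι → Set (HeightOneSpectrum (𝓞 E))) (C : ι → ℝ)
    (g : ι → Pl K → ℝ) (h : ∀ i ∈ s, UB (S i) (C i) (g i)) :
    UB (⋃ i ∈ s, S i) (∑ i ∈ s, C i) (fun p => ∏ i ∈ s, g i p) := by
  classical
  induction s using Finset.induction_on with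
  | empty =>
    simp only [Finset.prod_empty, Finset.sum_empty]
    exact UB_mono UB_one (Set.empty_subset _) le_rfl
  | insert i s hi ih =>
    simp only [Finset.prod_insert hi, Finset.sum_insert hi]
    refine UB_mono (UB_mul (h i (Finset.mem_insert_self _ _))
      (ih fun j hj => h j (Finset.mem_insert_of_mem hj))) ?_ le_rfl
    rw [Finset.set_biUnion_insert]

end UB

variable {E ι : Type} [Field E] [NumberField E] [Fintype ι]

omit [Fintype ι] in
/-- the size of the values of a form -/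
theorem form_bd (nrm' : S_NRM) (P : MvPolynomial ι E) {d : ℕ} (hP : P.IsHomogeneous d) :
    ∃ (S : Set (HeightOneSpectrum (𝓞 E))) (C : ℝ), S.Finite ∧ 0 ≤ C ∧
      ∀ (K : Type) [Field K] [NumberField K] [Algebra E K],
        ∃ B : Pl K → ℝ, UB S C B ∧ ∀ (g : ι → K) (p : Pl K) (M : ℝ), 0 ≤ M →
          (∀ j, av p (g j) ≤ M) → av p (aeval g P) ≤ B p * M ^ d := by
  classical
  let e := P.support.equivFin
  obtain ⟨c, hc⟩ : ∃ c : Fin (P.support.card + 1) → E,
      c = Fin.cons 1 (fun i => P.coeff (e.symm i).1) := ⟨_, rfl⟩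
  have hc0 : c 0 = 1 := by rw [hc, Fin.cons_zero]
  obtain ⟨S, C, hS, hC0, hC⟩ := nrm' E _ c 0 hc0
  have hB1 : (1 : ℝ) ≤ max 1 (P.support.card : ℝ) := le_max_left _ _
  refine ⟨S, Real.log (max 1 (P.support.card : ℝ)) + C, hS,
    add_nonneg (Real.log_nonneg hB1) hC0, fun K _ _ _ => ?_⟩
  refine ⟨fun p => cst (max 1 (P.support.card : ℝ)) p *
      nrm (av p) (fun i => algebraMap E K (c i)),
    UB_mono (UB_mul (UB_cst hB1) (hC K)) (by rw [Set.empty_union]) le_rfl,
    fun g p M hM hg => ?_⟩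
  have hcoef : ∀ m ∈ P.support, av p (algebraMap E K (P.coeff m)) ≤
      nrm (av p) (fun i => algebraMap E K (c i)) := by
    intro m hm
    have h1 := le_nrm (av p) (fun i => algebraMap E K (c i)) (e ⟨m, hm⟩).succ
    have h2 : c (e ⟨m, hm⟩).succ = P.coeff m := by
      rw [hc]
      simp only [Fin.cons_succ, Equiv.symm_apply_apply]
    rw [h2] at h1
    exact h1
  rw [MvPolynomial.aeval_def, MvPolynomial.eval₂_eq, mul_assoc]
  refine av_sum p P.support _ (nrm (av p) (fun i => algebraMap E K (c i)) * M ^ d)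
    (mul_nonneg (nrm_nonneg _ _) (pow_nonneg hM _)) (fun m hm => ?_)
    (max 1 (P.support.card : ℝ)) (le_max_right _ _)
  rw [map_mul, map_prod]
  have hdeg : ∑ i ∈ m.support, m i = d := by
    have h2 := hP (MvPolynomial.mem_support_iff.1 hm)
    rw [Finsupp.weight_apply, Finsupp.sum] at h2
    simpa using h2
  refine mul_le_mul ?_ ?_ (Finset.prod_nonneg fun i _ => (av p).nonneg _) (nrm_nonneg _ _)
  · exact hcoef m hm
  · rw [← hdeg, ← Finset.prod_pow_eq_pow_sum]
    refine Finset.prod_le_prod (fun i _ => (av p).nonneg _) fun i _ => ?_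
    rw [map_pow]
    exact pow_le_pow_left₀ ((av p).nonneg _) (hg i) _

/-- the local bound, from bounds for the forms -/
theorem local_bd {E K : Type} [Field E] [Field K] [NumberField K] [Algebra E K] [Nonempty ι]
    {m : ℕ} (a : Fin m → MvPolynomial ι E) (B : Fin m → Pl K → ℝ) (hB : ∀ i p, 1 ≤ B i p)
    (hBb : ∀ (i : Fin m) (g : ι → K) (p : Pl K) (M : ℝ), 0 ≤ M →
      (∀ j, av p (g j) ≤ M) → av p (aeval g (a i)) ≤ B i p * M ^ (m - (i : ℕ)))
    (g : ι → K) (f : K) (hrel : f ^ m + ∑ i : Fin m, aeval g (a i) * f ^ (i : ℕ) = 0)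
    (p : Pl K) : ∃ j, av p f ≤ (cst ((m : ℝ) + 1) p * ∏ i, B i p) * av p (g j) := by
  classical
  obtain ⟨j, hj⟩ := Finite.exists_max fun j => av p (g j)
  refine ⟨j, ?_⟩
  by_contra hlt
  push Not at hlt
  obtain ⟨M, hM⟩ : ∃ M : ℝ, M = av p (g j) := ⟨_, rfl⟩
  obtain ⟨x, hx⟩ : ∃ x : ℝ, x = av p f := ⟨_, rfl⟩
  rw [← hM, ← hx] at hlt
  have hM0 : 0 ≤ M := by rw [hM]; exact (av p).nonneg _
  obtain ⟨C, hC⟩ : ∃ C : ℝ, C = ∏ i, B i p := ⟨_, rfl⟩
  have hprod : ∀ s : Finset (Fin m), 1 ≤ ∏ i ∈ s, B i p := by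
    intro s
    induction s using Finset.induction_on with
    | empty => simp
    | insert i s hi ih =>
      rw [Finset.prod_insert hi]
      exact one_le_mul_of_one_le_of_one_le (hB i p) ih
  have hC1 : 1 ≤ C := by
    rw [hC]
    exact hprod _
  obtain ⟨c', hc'⟩ : ∃ c' : ℝ, c' = cst ((m : ℝ) + 1) p := ⟨_, rfl⟩
  have hc1 : 1 ≤ c' := by
    rw [hc']
    refine one_le_cst ?_ p
    have : (0 : ℝ) ≤ m := Nat.cast_nonneg m
    linarith
  have hlt' : c' * C * M < x := by
    rw [hc', hC]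
    exact hlt
  have hMx : M ≤ x := by
    have h1 : 1 ≤ c' * C := one_le_mul_of_one_le_of_one_le hc1 hC1
    nlinarith
  have hx0 : 0 < x := by
    have : 0 ≤ c' * C * M := by positivity
    linarith
  obtain ⟨k, rfl⟩ : ∃ k, m = k + 1 := by
    rcases m with _ | k
    · exfalso
      simp at hrel
    · exact ⟨k, rfl⟩
  have hterm : ∀ i ∈ (Finset.univ : Finset (Fin (k + 1))),
      av p (aeval g (a i) * f ^ (i : ℕ)) ≤ C * M * x ^ k := by
    intro i _
    have h1 := hBb i g p M hM0 (fun j' => by rw [hM]; exact hj j')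
    have h2 : B i p ≤ C := by
      rw [hC]
      exact Pool.Agent.H432.TC.le_prod_bd Finset.univ (fun i => B i p) (fun i _ => hB i p)
        (Finset.mem_univ i)
    obtain ⟨t, ht⟩ : ∃ t, k + 1 - (i : ℕ) = t + 1 := ⟨k - i, by omega⟩
    have ht' : k = t + i := by omega
    rw [ht] at h1
    rw [map_mul, map_pow, ← hx]
    have h3 : M ^ (t + 1) ≤ M * x ^ t := by
      rw [pow_succ, mul_comm]
      exact mul_le_mul_of_nonneg_left (pow_le_pow_left₀ hM0 hMx t) hM0
    have hB0 : 0 ≤ B i p := zero_le_one.trans (hB i p)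
    calc av p (aeval g (a i)) * x ^ (i : ℕ) ≤ (B i p * M ^ (t + 1)) * x ^ (i : ℕ) :=
          mul_le_mul_of_nonneg_right h1 (by positivity)
      _ ≤ (C * (M * x ^ t)) * x ^ (i : ℕ) := by
          refine mul_le_mul_of_nonneg_right ?_ (by positivity)
          exact mul_le_mul h2 h3 (by positivity) (by linarith)
      _ = C * M * x ^ k := by
          have h5 : x ^ k = x ^ t * x ^ (i : ℕ) := by rw [← pow_add, ← ht']
          rw [h5]; ring
  have hsum := av_sum p Finset.univ (fun i : Fin (k + 1) => aeval g (a i) * f ^ (i : ℕ))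
    (C * M * x ^ k) (by positivity) hterm (((k + 1 : ℕ) : ℝ) + 1) (by
      rw [Finset.card_univ, Fintype.card_fin]
      linarith)
  have heq : f ^ (k + 1) = -∑ i : Fin (k + 1), aeval g (a i) * f ^ (i : ℕ) :=
    eq_neg_of_add_eq_zero_left hrel
  have hav : x ^ (k + 1) = av p (∑ i : Fin (k + 1), aeval g (a i) * f ^ (i : ℕ)) := by
    rw [hx, ← map_pow, heq, AbsoluteValue.map_neg]
  rw [← hav, ← hc'] at hsum
  have h4 : c' * (C * M * x ^ k) = (c' * C * M) * x ^ k := by ring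
  rw [h4, pow_succ, mul_comm (x ^ k) x] at hsum
  exact absurd hsum (not_le.2 (mul_lt_mul_of_pos_right hlt' (by positivity)))

end PLOCBU

open PLOCBU in
theorem locbu (nrm : S_NRM) : S_LOCBU := by
  intro E ι _ _ _ _ m a ha
  classical
  choose S C hS hC0 hC using fun i => form_bd nrm (a i) (ha i)
  have hm1 : (1 : ℝ) ≤ (m : ℝ) + 1 := by
    have : (0 : ℝ) ≤ m := Nat.cast_nonneg m
    linarith
  refine ⟨⋃ i ∈ (Finset.univ : Finset (Fin m)), S i, Real.log ((m : ℝ) + 1) + ∑ i, C i, ?_, ?_, ?_⟩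
  · exact Set.Finite.biUnion (Finset.finite_toSet _) fun i _ => hS i
  · exact add_nonneg (Real.log_nonneg hm1) (Finset.sum_nonneg fun i _ => hC0 i)
  intro K _ _ _
  choose B hB hBb using fun i => hC i K
  refine ⟨fun p => cst ((m : ℝ) + 1) p * ∏ i, B i p,
    UB_mono (UB_mul (UB_cst hm1) (UB_prod Finset.univ S C B fun i _ => hB i))
      (by rw [Set.empty_union]) le_rfl, ?_⟩
  intro g f hrel p
  exact local_bd a B (fun i p => (hB i).1.1 p) hBb g f hrel p

end Pool.Agent.H432.AU
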